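import Pool.Agent.L0h18.HZ.Defs

/-!
# PT: groups of translations of maximal rank, acting on a closed convex cone

A linear automorphism `T` of `ℝ ^ ρ` is a translation along the vector `e`, for the functional `l` with `l e = 0`,
if `T x = x + l x • v + φ x • e`.
-/

set_option autoImplicit false

open Pool.Agent.Y167 (cone mem_cone_self cone_add cone_smul cone_mono zero_mem_cone)
open Pool.Agent.N165.KM (IntL exists_int_functional exists_int_interior mem_IntL)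
open Filter Topology
open Pool.Agent.L0h18.HZ (CCone)

namespace Pool.Agent.L0h18.PT

/-- `T x = x + l x • v + φ x • e` for all `x`, where `φ` is a functional and `l v = 0`: in the affine space
`{l = 1} / ℝ e` the map `T` is the translation by `v`. -/
def Tra {ρ : ℕ} (l : (Fin ρ → ℝ) →ₗ[ℝ] ℝ) (e : Fin ρ → ℝ) (T : (Fin ρ → ℝ) ≃ₗ[ℝ] (Fin ρ → ℝ))
    (v : Fin ρ → ℝ) : Prop :=
  l v = 0 ∧ ∃ φ : (Fin ρ → ℝ) →ₗ[ℝ] ℝ, ∀ x, T x = x + l x • v + φ x • e

/-- The closed convex cone `C` is rational polyhedral near its point `x`: some rational polyhedral cone which is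
contained in `C` contains a neighbourhood of `x` in `C`. -/
def LocPoly {ρ : ℕ} (C : Set (Fin ρ → ℝ)) (x : Fin ρ → ℝ) : Prop :=
  ∃ S : Finset (Fin ρ → ℝ), (∀ s ∈ S, (∀ i, ∃ m : ℤ, s i = (m : ℝ)) ∧ s ∈ C) ∧ ∃ U ∈ 𝓝 x, C ∩ U ⊆ cone S

structure Par {ρ : ℕ} (𝒢 : Set ((Fin ρ → ℝ) ≃ₗ[ℝ] (Fin ρ → ℝ))) (C : Set (Fin ρ → ℝ))
    (l : (Fin ρ → ℝ) →ₗ[ℝ] ℝ) (e : Fin ρ → ℝ) : Prop where
  one : 1 ∈ 𝒢
  mul : ∀ T ∈ 𝒢, ∀ T' ∈ 𝒢, T * T' ∈ 𝒢
  symm : ∀ T ∈ 𝒢, T.symm ∈ 𝒢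
  int : ∀ T ∈ 𝒢, ∀ x ∈ IntL ρ, T x ∈ IntL ρ
  pres : ∀ T ∈ 𝒢, ∀ x ∈ C, T x ∈ C
  cc : CCone C
  pt : ∀ x ∈ C, -x ∈ C → x = 0
  ne_int : (interior C).Nonempty
  e_mem : e ∈ C
  e_int : e ∈ IntL ρ
  e_ne : e ≠ 0
  l_e : l e = 0
  l_pos : ∀ x ∈ C, 0 ≤ l x
  l_ne : l ≠ 0
  fix : ∀ T ∈ 𝒢, T e = e
  tra : ∀ T ∈ 𝒢, ∃ v, Tra l e T v
  rank : ∀ u, l u = 0 → u ∈ Submodule.span ℝ ({e} ∪ {v | ∃ T ∈ 𝒢, Tra l e T v})

section

variable {ρ : ℕ} {𝒢 : Set ((Fin ρ → ℝ) ≃ₗ[ℝ] (Fin ρ → ℝ))} {C : Set (Fin ρ → ℝ)}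
    {l : (Fin ρ → ℝ) →ₗ[ℝ] ℝ} {e : Fin ρ → ℝ}

theorem dir_mem (hC : CCone C) {x w : Fin ρ → ℝ} (h : ∀ k : ℕ, x + (k : ℝ) • w ∈ C) : w ∈ C := by
  have h1 : Tendsto (fun k : ℕ => (1 / ((k : ℝ) + 1))) atTop (𝓝 0) := tendsto_one_div_add_atTop_nhds_zero_nat
  have h2 : Tendsto (fun k : ℕ => (1 / ((k : ℝ) + 1)) • (x - w) + w) atTop (𝓝 w) := by
    have := (h1.smul_const (x - w)).add_const w
    rwa [zero_smul, zero_add] at this
  refine hC.closed.mem_of_tendsto h2 (Eventually.of_forall fun k => ?_)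
  have h3 := hC.smul (1 / ((k : ℝ) + 1)) (by positivity) _ (h k)
  have h4 : (1 / ((k : ℝ) + 1)) • (x - w) + w = (1 / ((k : ℝ) + 1)) • (x + (k : ℝ) • w) := by
    have hk : (k : ℝ) + 1 ≠ 0 := by positivity
    ext i
    simp only [Pi.add_apply, Pi.smul_apply, Pi.sub_apply, smul_eq_mul]
    field_simp
    ring
  rw [h4]
  exact h3

/-- an automorphism of the cone with `T x = x + w`, `T w = w` fixes `x` -/
theorem Par.kill (h : Par 𝒢 C l e) {T : (Fin ρ → ℝ) ≃ₗ[ℝ] (Fin ρ → ℝ)} (hT : T ∈ 𝒢) {x w : Fin ρ → ℝ}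
    (hx : x ∈ C) (h1 : T x = x + w) (h2 : T w = w) : w = 0 := by
  have h3 : ∀ k : ℕ, x + (k : ℝ) • w ∈ C := by
    intro k
    induction k with
    | zero => simpa using hx
    | succ k ih =>
      have := h.pres T hT _ ih
      rw [map_add, map_smul, h1, h2, add_assoc] at this
      have h5 : w + (k : ℝ) • w = ((k + 1 : ℕ) : ℝ) • w := by
        push_cast
        rw [add_smul, one_smul, add_comm]
      rwa [h5] at this
  have h1' : T.symm x = x + -w := by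
    rw [LinearEquiv.symm_apply_eq, map_add, map_neg, h1, h2]
    abel
  have h2' : T.symm (-w) = -w := by
    rw [LinearEquiv.symm_apply_eq, map_neg, h2]
  have h4 : ∀ k : ℕ, x + (k : ℝ) • (-w) ∈ C := by
    intro k
    induction k with
    | zero => simpa using hx
    | succ k ih =>
      have := h.pres _ (h.symm T hT) _ ih
      rw [map_add, map_smul, h1', h2', add_assoc] at this
      have h5 : -w + (k : ℝ) • (-w) = ((k + 1 : ℕ) : ℝ) • (-w) := by
        push_cast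
        rw [add_smul, one_smul, add_comm]
      rwa [h5] at this
  exact h.pt w (dir_mem h.cc h3) (dir_mem h.cc h4)

/-- the group of the pairs of a translation vector `v` and the functional `φ`, on `ker l` -/
def Par.H (h : Par 𝒢 C l e) : AddSubgroup ((Fin ρ → ℝ) × ((Fin ρ → ℝ) →ₗ[ℝ] ℝ)) where
  carrier := {z | ∃ T ∈ 𝒢, ∃ φ : (Fin ρ → ℝ) →ₗ[ℝ] ℝ, l z.1 = 0 ∧
    (∀ x, T x = x + l x • z.1 + φ x • e) ∧ ∀ u, l u = 0 → z.2 u = φ u}
  zero_mem' := ⟨1, h.one, 0, by simp, fun x => by simp, fun u _ => by simp⟩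
  add_mem' := by
    rintro ⟨v, ψ⟩ ⟨v', ψ'⟩ ⟨T, hT, φ, h1, h2, h3⟩ ⟨T', hT', φ', h1', h2', h3'⟩
    dsimp only at h1 h2 h3 h1' h2' h3'
    refine ⟨T' * T, h.mul _ hT' _ hT, φ' + φ + φ' v • l, ?_, fun x => ?_, fun u hu => ?_⟩
    · show l (v + v') = 0
      rw [map_add, h1, h1', add_zero]
    · show T' (T x) = x + l x • (v + v') + _
      have e1 : T' v = v + φ' v • e := by
        rw [h2' v, h1, zero_smul, add_zero]
      rw [h2 x, map_add, map_add, map_smul, map_smul, h2' x, e1, h.fix T' hT']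
      ext i
      simp only [Pi.add_apply, Pi.smul_apply, LinearMap.add_apply, LinearMap.smul_apply, smul_eq_mul]
      ring
    · show ψ u + ψ' u = _
      rw [h3 u hu, h3' u hu, LinearMap.add_apply, LinearMap.add_apply, LinearMap.smul_apply, hu, smul_zero,
        add_zero, add_comm]
  neg_mem' := by
    rintro ⟨v, ψ⟩ ⟨T, hT, φ, h1, h2, h3⟩
    dsimp only at h1 h2 h3
    refine ⟨T.symm, h.symm _ hT, -φ + φ v • l, ?_, fun x => ?_, fun u hu => ?_⟩
    · show l (-v) = 0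
      rw [map_neg, h1, neg_zero]
    · show T.symm x = x + l x • (-v) + _
      have e1 : T v = v + φ v • e := by
        rw [h2 v, h1, zero_smul, add_zero]
      rw [LinearEquiv.symm_apply_eq, map_add, map_add, map_smul, map_smul, map_neg, h2 x, e1, h.fix T hT]
      ext i
      simp only [Pi.add_apply, Pi.smul_apply, LinearMap.add_apply, LinearMap.smul_apply, LinearMap.neg_apply,
        Pi.neg_apply, smul_eq_mul]
      ring
    · show -ψ u = _
      rw [h3 u hu, LinearMap.add_apply, LinearMap.neg_apply, LinearMap.smul_apply, hu, smul_zero, add_zero]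

theorem Par.mem_H (h : Par 𝒢 C l e) {z : (Fin ρ → ℝ) × ((Fin ρ → ℝ) →ₗ[ℝ] ℝ)} : z ∈ h.H ↔
    ∃ T ∈ 𝒢, ∃ φ : (Fin ρ → ℝ) →ₗ[ℝ] ℝ, l z.1 = 0 ∧
    (∀ x, T x = x + l x • z.1 + φ x • e) ∧ ∀ u, l u = 0 → z.2 u = φ u := Iff.rfl

theorem Par.l_int (h : Par 𝒢 C l e) {x : Fin ρ → ℝ} (hx : x ∈ interior C) : 0 < l x := by
  refine lt_of_le_of_ne (h.l_pos x (interior_subset hx)) fun h0 => h.l_ne ?_
  refine LinearMap.ext fun v => ?_
  have h1 : Tendsto (fun t : ℝ => x + t • v) (𝓝 0) (𝓝 x) := by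
    have : Continuous fun t : ℝ => x + t • v := by fun_prop
    have h2 := this.tendsto 0
    rwa [zero_smul, add_zero] at h2
  have h2 : ∀ᶠ t : ℝ in 𝓝 0, x + t • v ∈ C := h1.eventually (mem_interior_iff_mem_nhds.1 hx)
  obtain ⟨δ, hδ, hb⟩ := Metric.eventually_nhds_iff.1 h2
  have h3 := h.l_pos _ (hb (y := δ / 2) (by rw [Real.dist_eq, sub_zero, abs_of_pos (by positivity)]; linarith))
  have h4 := h.l_pos _ (hb (y := -(δ / 2)) (by
    rw [Real.dist_eq, sub_zero, abs_neg, abs_of_pos (by positivity)]; linarith))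
  rw [map_add, map_smul, ← h0, smul_eq_mul, zero_add] at h3 h4
  rw [LinearMap.zero_apply]
  nlinarith

/-- if `(v, ψ)` is in the group and `ψ` vanishes on `ker l` then `v` is a multiple of `e` -/
theorem Par.ker_H (h : Par 𝒢 C l e) {z : (Fin ρ → ℝ) × ((Fin ρ → ℝ) →ₗ[ℝ] ℝ)} (hz : z ∈ h.H)
    (h0 : ∀ u, l u = 0 → z.2 u = 0) : ∃ t : ℝ, z.1 = t • e := by
  obtain ⟨T, hT, φ, h1, h2, h3⟩ := hz
  obtain ⟨p, hp⟩ := h.ne_int
  have hlp := h.l_int hp
  have hw : l (l p • z.1 + φ p • e) = 0 := by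
    rw [map_add, map_smul, map_smul, h1, h.l_e, smul_zero, smul_zero, add_zero]
  have h5 := h.kill hT (w := l p • z.1 + φ p • e) (interior_subset hp) (by rw [h2 p, add_assoc]) (by
    rw [h2, hw, ← h3 _ hw, h0 _ hw, zero_smul, zero_smul, add_zero, add_zero])
  refine ⟨-(φ p / l p), ?_⟩
  have h6 : l p • z.1 = -(φ p • e) := eq_neg_of_add_eq_zero_left h5
  have h7 : z.1 = (l p)⁻¹ • (l p • z.1) := by rw [smul_smul, inv_mul_cancel₀ hlp.ne', one_smul]
  rw [h7, h6, smul_neg, smul_smul, neg_smul, div_eq_inv_mul]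

theorem Par.psi_e (h : Par 𝒢 C l e) {z : (Fin ρ → ℝ) × ((Fin ρ → ℝ) →ₗ[ℝ] ℝ)} (hz : z ∈ h.H) : z.2 e = 0 := by
  obtain ⟨T, hT, φ, h1, h2, h3⟩ := hz
  rw [h3 e h.l_e]
  have h4 := h2 e
  rw [h.fix T hT, h.l_e, zero_smul, add_zero] at h4
  have h5 : φ e • e = 0 := by
    have := sub_eq_zero.2 h4
    rw [sub_add_eq_sub_sub, sub_self, zero_sub, neg_eq_zero] at this
    exact this
  exact (smul_eq_zero.1 h5).resolve_right h.e_ne

/-- translations are given by a basis of `ker l / ℝ e`; the vectors of the cone in `ker l` are multiples of `e` -/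
theorem Par.basis (h : Par 𝒢 C l e) : ∃ s : Finset (Fin ρ → ℝ), (∀ v ∈ s, ∃ ψ, (v, ψ) ∈ h.H) ∧
    (∀ u, l u = 0 → ∃ (a : s → ℝ) (t : ℝ), u = ∑ j, a j • (j : Fin ρ → ℝ) + t • e) ∧
    ∀ x ∈ C, l x = 0 → ∃ t : ℝ, x = t • e := by
  classical
  obtain ⟨𝒱, h𝒱⟩ : ∃ 𝒱, 𝒱 = {v | ∃ T ∈ 𝒢, Tra l e T v} := ⟨_, rfl⟩
  have hrank := h.rank
  rw [← h𝒱] at hrank
  obtain ⟨b, hb1, hb2, hb3, hb4⟩ := exists_linearIndepOn_id_extension (K := ℝ) (s := {e}) (t := {e} ∪ 𝒱)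
    (LinearIndepOn.singleton (R := ℝ) (v := id) h.e_ne) Set.subset_union_left
  have heb : e ∈ b := hb2 rfl
  have hfin : b.Finite := LinearIndependent.setFinite (R := ℝ) (b := b) hb4
  obtain ⟨s, hs⟩ : ∃ s : Finset (Fin ρ → ℝ), ∀ v, v ∈ s ↔ v ∈ b ∧ v ≠ e :=
    ⟨hfin.toFinset.erase e, fun v => by rw [Finset.mem_erase, Set.Finite.mem_toFinset, and_comm]⟩
  have hbs : b = insert e (s : Set (Fin ρ → ℝ)) := by
    ext v
    rw [Set.mem_insert_iff, Finset.mem_coe, hs]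
    constructor
    · intro hv
      by_cases h1 : v = e
      · exact Or.inl h1
      · exact Or.inr ⟨hv, h1⟩
    · rintro (rfl | h1)
      · exact heb
      · exact h1.1
  rw [hbs, linearIndepOn_id_insert_iff] at hb4
  obtain ⟨hb5, hb6⟩ := hb4
  have hes : e ∉ Submodule.span ℝ (s : Set (Fin ρ → ℝ)) := fun h1 => ((hs e).1 (hb6 h1)).2 rfl
  have hψ : ∀ v : s, ∃ ψ, ((v : Fin ρ → ℝ), ψ) ∈ h.H := by
    rintro ⟨v, hv⟩
    obtain ⟨h1, h2⟩ := (hs v).1 hv
    rcases hb1 h1 with h3 | h3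
    · exact absurd h3 h2
    · rw [h𝒱] at h3
      obtain ⟨T, hT, h4, φ, h5⟩ := h3
      exact ⟨φ, T, hT, φ, h4, h5, fun u _ => rfl⟩
  have hspan : ∀ u, l u = 0 → ∃ (a : s → ℝ) (t : ℝ), u = ∑ j, a j • (j : Fin ρ → ℝ) + t • e := by
    intro u hu
    have h1 : u ∈ Submodule.span ℝ b := Submodule.span_le.2 hb3 (hrank u hu)
    rw [hbs] at h1
    obtain ⟨t, z, hz, rfl⟩ := Submodule.mem_span_insert.1 h1
    have h2 : z ∈ Submodule.span ℝ (Set.range (fun j : s => (j : Fin ρ → ℝ))) := by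
      rwa [Subtype.range_coe_subtype]
    obtain ⟨a, ha⟩ := (Submodule.mem_span_range_iff_exists_fun ℝ).1 h2
    exact ⟨a, t, by rw [ha, add_comm]⟩
  refine ⟨s, fun v hv => hψ ⟨v, hv⟩, hspan, ?_⟩
  choose ψ hψ using hψ
  obtain ⟨p, hp, hpi⟩ := exists_int_interior h.cc.smul h.ne_int
  have hlp := h.l_int hp
  obtain ⟨k, hk⟩ := Function.ne_iff.1 h.e_ne
  change e k ≠ 0 at hk
  have hN : ∀ i j : s, ∃ m : ℤ, (m : ℝ) = l p * ψ i j * e k := by
    intro i j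
    obtain ⟨T, hT, φ, h1, h2, h3⟩ := hψ i
    obtain ⟨T', hT', φ', h1', h2', h3'⟩ := hψ j
    dsimp only at h1 h2 h3 h1' h2' h3'
    have hw : T' p - p ∈ IntL ρ := sub_mem (h.int T' hT' p hpi) hpi
    have hw' : T' p - p = l p • (j : Fin ρ → ℝ) + φ' p • e := by
      rw [h2' p, add_assoc, add_sub_cancel_left]
    have hlw : l (T' p - p) = 0 := by
      rw [hw', map_add, map_smul, map_smul, h1', h.l_e, smul_zero, smul_zero, add_zero]
    have h4 : T (T' p - p) - (T' p - p) ∈ IntL ρ := sub_mem (h.int T hT _ hw) hw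
    have h5 : T (T' p - p) - (T' p - p) = (l p * ψ i j) • e := by
      rw [h2, hlw, zero_smul, add_zero, add_sub_cancel_left, ← h3 _ hlw, hw', map_add, map_smul, map_smul]
      have h6 := h.psi_e (hψ i)
      dsimp only at h6
      rw [h6, smul_zero, add_zero, smul_eq_mul]
    rw [h5] at h4
    obtain ⟨m, hm⟩ := h4 k
    exact ⟨m, by rw [← hm, Pi.smul_apply, smul_eq_mul]⟩
  choose N hN using hN
  have hc0 : l p * e k ≠ 0 := mul_ne_zero hlp.ne' hk
  have hdet : (Matrix.of N).det ≠ 0 := by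
    intro hdet
    obtain ⟨n, hn0, hn⟩ := Matrix.exists_vecMul_eq_zero_iff.2 hdet
    obtain ⟨z, hz⟩ : ∃ z, z = ∑ i : s, n i • ((i : Fin ρ → ℝ), ψ i) := ⟨_, rfl⟩
    have hzH : z ∈ h.H := by
      rw [hz]
      exact AddSubgroup.sum_mem _ fun i _ => AddSubgroup.zsmul_mem _ (hψ i) _
    have hz1 : z.1 = ∑ i : s, (n i : ℝ) • (i : Fin ρ → ℝ) := by
      rw [hz, Prod.fst_sum]
      exact Finset.sum_congr rfl fun i _ => by rw [Prod.smul_fst, ← Int.cast_smul_eq_zsmul ℝ]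
    have hz2 : ∀ u, z.2 u = ∑ i : s, (n i : ℝ) * ψ i u := by
      intro u
      rw [hz, Prod.snd_sum, LinearMap.sum_apply]
      exact Finset.sum_congr rfl fun i _ => by
        rw [Prod.smul_snd, ← Int.cast_smul_eq_zsmul ℝ, LinearMap.smul_apply, smul_eq_mul]
    have hzj : ∀ j : s, z.2 j = 0 := by
      intro j
      have h1 := congrFun hn j
      rw [Matrix.vecMul, dotProduct, Pi.zero_apply] at h1
      have h2 : (∑ i : s, (n i : ℝ) * (N i j : ℝ)) = 0 := by exact_mod_cast h1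
      have h3 : (l p * e k) * z.2 j = 0 := by
        rw [hz2, Finset.mul_sum, ← h2]
        exact Finset.sum_congr rfl fun i _ => by rw [hN i j]; ring
      exact (mul_eq_zero.1 h3).resolve_left hc0
    obtain ⟨t, ht⟩ := h.ker_H hzH fun u hu => by
      obtain ⟨a, t, rfl⟩ := hspan u hu
      rw [map_add, map_sum, map_smul, h.psi_e hzH, smul_zero, add_zero]
      exact Finset.sum_eq_zero fun j _ => by rw [map_smul, hzj j, smul_zero]
    have ht0 : t = 0 := by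
      by_contra ht0
      refine hes ?_
      have h1 : e = t⁻¹ • z.1 := by rw [ht, smul_smul, inv_mul_cancel₀ ht0, one_smul]
      rw [h1, hz1]
      exact Submodule.smul_mem _ _ (Submodule.sum_mem _ fun i _ => Submodule.smul_mem _ _
        (Submodule.subset_span i.2))
    rw [ht0, zero_smul, hz1] at ht
    refine hn0 (funext fun i => ?_)
    have h1 := Fintype.linearIndependent_iff.1 (show LinearIndependent ℝ (fun j : s => (j : Fin ρ → ℝ)) from hb5)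
      (fun i => (n i : ℝ)) ht i
    exact_mod_cast h1
  intro x hx hlx
  obtain ⟨a, t, rfl⟩ := hspan x hlx
  have hψx : ∀ i : s, ψ i (∑ j, a j • (j : Fin ρ → ℝ) + t • e) = 0 := by
    intro i
    obtain ⟨T, hT, φ, h1, h2, h3⟩ := hψ i
    dsimp only at h1 h2 h3
    rw [h3 _ hlx]
    have h4 := h.kill hT hx (w := φ (∑ j, a j • (j : Fin ρ → ℝ) + t • e) • e) (by rw [h2, hlx, zero_smul, add_zero])
      (by rw [map_smul, h.fix T hT])
    exact (smul_eq_zero.1 h4).resolve_right h.e_ne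
  have ha : a = 0 := by
    have hdet' : ((Matrix.of N).map (Int.cast : ℤ → ℝ)).det ≠ 0 := by
      have h1 : ((Matrix.of N).map (Int.cast : ℤ → ℝ)).det = ((Matrix.of N).det : ℝ) :=
        (RingHom.map_det (Int.castRingHom ℝ) (Matrix.of N)).symm
      rw [h1]
      exact_mod_cast hdet
    refine Matrix.eq_zero_of_mulVec_eq_zero hdet' (funext fun i => ?_)
    rw [Matrix.mulVec, dotProduct, Pi.zero_apply]
    have h1 := hψx i
    have h6 := h.psi_e (hψ i)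
    dsimp only at h6
    rw [map_add, map_sum, map_smul, h6, smul_zero, add_zero] at h1
    have h2 : (l p * e k) * ∑ j, ψ i (a j • (j : Fin ρ → ℝ)) = 0 := by rw [h1, mul_zero]
    rw [Finset.mul_sum] at h2
    rw [← h2]
    refine Finset.sum_congr rfl fun j _ => ?_
    rw [Matrix.map_apply, Matrix.of_apply, hN i j, map_smul, smul_eq_mul]
    ring
  refine ⟨t, ?_⟩
  rw [ha]
  simp

end

end Pool.Agent.L0h18.PT
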