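import Pool.Agent.L0h18.PT.Fin

/-!
# PT: a cone with a rational polyhedral fundamental domain is rational polyhedral outside the fixed ray
-/

set_option autoImplicit false

open Pool.Agent.Y167 (cone mem_cone_self cone_add cone_smul cone_mono zero_mem_cone cone_ind cone_image)
open Pool.Agent.N165.KM (IntL exists_int_functional exists_int_interior mem_IntL finite_bdd interior_add_mem
  interior_smul_mem)
open Filter Topology
open Pool.Agent.L0h18.HZ (CCone)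
open Pool.Agent.L0h18.CO (exists_dom)

namespace Pool.Agent.L0h18.PT

section

variable {ρ : ℕ} {𝒢 𝒢' : Set ((Fin ρ → ℝ) ≃ₗ[ℝ] (Fin ρ → ℝ))} {C : Set (Fin ρ → ℝ)}
    {l : (Fin ρ → ℝ) →ₗ[ℝ] ℝ} {e : Fin ρ → ℝ}

theorem Par.l_tra (h : Par 𝒢 C l e) {T : (Fin ρ → ℝ) ≃ₗ[ℝ] (Fin ρ → ℝ)} (hT : T ∈ 𝒢) (x : Fin ρ → ℝ) :
    l (T x) = l x := by
  obtain ⟨v, hv, φ, hφ⟩ := h.tra T hT
  rw [hφ, map_add, map_add, map_smul, map_smul, hv, h.l_e, smul_zero, smul_zero, add_zero, add_zero]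

/-- the group multiplies the functional `l` by scalars -/
theorem Sym.l_mul (hG : Sym 𝒢' C e) (h : Par 𝒢 C l e) {T : (Fin ρ → ℝ) ≃ₗ[ℝ] (Fin ρ → ℝ)} (hT : T ∈ 𝒢') :
    ∃ k : ℝ, 0 < k ∧ ∀ x, l (T x) = k * l x := by
  classical
  obtain ⟨p, hp⟩ := h.ne_int
  have hlp := h.l_int hp
  obtain ⟨s, hψ, hspan, -⟩ := h.basis
  have hv : ∀ z ∈ h.H, l (T z.1) = 0 := by
    intro z hz
    have h1 : ∀ k : ℤ, 0 ≤ l (T p) + k * (l p * l (T z.1)) := by
      intro k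
      obtain ⟨g, hg, φ, -, h2, -⟩ := AddSubgroup.zsmul_mem _ hz k
      have h3 := h.l_pos _ (hG.pres T hT _ (h.pres g hg p (interior_subset hp)))
      rw [h2, map_add, map_add, map_smul, map_smul, map_add, map_add, map_smul, map_smul, hG.fix T hT, h.l_e,
        smul_zero, add_zero, Prod.smul_fst, ← Int.cast_smul_eq_zsmul ℝ, map_smul, map_smul] at h3
      simp only [smul_eq_mul] at h3
      linarith
    have h2 : l p * l (T z.1) = 0 := by
      by_contra h0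
      obtain ⟨m, hm⟩ := exists_nat_gt (l (T p) / |l p * l (T z.1)|)
      rw [div_lt_iff₀ (abs_pos.2 h0)] at hm
      rcases le_total 0 (l p * l (T z.1)) with h3 | h3
      · have h4 := h1 (-(m : ℤ))
        rw [abs_of_nonneg h3] at hm
        push_cast at h4
        linarith
      · have h4 := h1 (m : ℤ)
        rw [abs_of_nonpos h3] at hm
        push_cast at h4
        linarith
    exact (mul_eq_zero.1 h2).resolve_left hlp.ne'
  have hk : ∀ u, l u = 0 → l (T u) = 0 := by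
    intro u hu
    obtain ⟨a, t, rfl⟩ := hspan u hu
    rw [map_add, map_sum, map_smul, hG.fix T hT, map_add, map_sum, map_smul, h.l_e, smul_zero, add_zero]
    refine Finset.sum_eq_zero fun j _ => ?_
    obtain ⟨ψ, hψ'⟩ := hψ j j.2
    rw [map_smul, map_smul, hv _ hψ', smul_zero]
  have hall : ∀ x, l (T x) = l (T p) / l p * l x := by
    intro x
    have h1 := hk (x - (l x / l p) • p) (by
      rw [map_sub, map_smul, smul_eq_mul, div_mul_cancel₀ _ hlp.ne', sub_self])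
    rw [map_sub, map_smul, map_sub, map_smul, smul_eq_mul, sub_eq_zero] at h1
    rw [h1]
    field_simp
  refine ⟨l (T p) / l p, lt_of_le_of_ne (div_nonneg (h.l_pos _ (hG.pres T hT p (interior_subset hp))) hlp.le) ?_, hall⟩
  intro h0
  refine h.l_ne (LinearMap.ext fun x => ?_)
  have h1 := hall (T.symm x)
  rw [← h0, zero_mul, LinearEquiv.apply_symm_apply] at h1
  rw [h1, LinearMap.zero_apply]

theorem Sym.l_eq (hG : Sym 𝒢' C e) (h : Par 𝒢 C l e) {T : (Fin ρ → ℝ) ≃ₗ[ℝ] (Fin ρ → ℝ)} (hT : T ∈ 𝒢')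
    (x : Fin ρ → ℝ) : l (T x) = l x := by
  classical
  -- the scalar is at least one
  have key : ∀ T ∈ 𝒢', ∀ k : ℝ, 0 < k → (∀ x, l (T x) = k * l x) → 1 ≤ k := by
    intro T hT k hk0 hk
    by_contra hk1
    push Not at hk1
    obtain ⟨p, hp, hpi⟩ := exists_int_interior h.cc.smul h.ne_int
    have hlp := h.l_int hp
    obtain ⟨R, hR⟩ := h.move
    have hx : ∀ m : ℕ, ∃ w ∈ {x : Fin ρ → ℝ | x ∈ IntL ρ ∧ ‖x‖ ≤ l p * R + ‖e‖}, l w = k ^ m * l p := by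
      intro m
      have h1 : ∀ m : ℕ, ∃ x ∈ IntL ρ, l x = k ^ m * l p := by
        intro m
        induction m with
        | zero => exact ⟨p, hpi, by rw [pow_zero, one_mul]⟩
        | succ m ih =>
          obtain ⟨x, hx, hlx⟩ := ih
          exact ⟨T x, hG.int T hT x hx, by rw [hk, hlx, pow_succ]; ring⟩
      obtain ⟨x, hx, hlx⟩ := h1 m
      have hlx0 : 0 < l x := by rw [hlx]; positivity
      have hlx1 : l x ≤ l p := by
        rw [hlx]
        exact mul_le_of_le_one_left hlp.le (pow_le_one₀ hk0.le hk1.le)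
      obtain ⟨g, hg, z, hz, t, ht⟩ := hR ((l x)⁻¹ • x) (by rw [map_smul, smul_eq_mul, inv_mul_cancel₀ hlx0.ne'])
      have h2 : g x = l x • z + (l x * t) • e := by
        have h3 : x = l x • ((l x)⁻¹ • x) := by rw [smul_smul, mul_inv_cancel₀ hlx0.ne', one_smul]
        rw [h3, map_smul, ht, smul_add, smul_smul, map_smul, smul_eq_mul, map_smul, smul_eq_mul]
        have h4 : (l x)⁻¹ * l x = 1 := inv_mul_cancel₀ hlx0.ne'
        rw [h4, mul_one]
      refine ⟨g x - (⌊l x * t⌋ : ℝ) • e, ⟨?_, ?_⟩, ?_⟩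
      · refine sub_mem (h.int g hg x hx) ?_
        rw [Int.cast_smul_eq_zsmul]
        exact AddSubgroup.zsmul_mem _ h.e_int _
      · have h5 : g x - (⌊l x * t⌋ : ℝ) • e = l x • z + Int.fract (l x * t) • e := by
          rw [h2, Int.fract, sub_smul]
          abel
        rw [h5]
        refine (norm_add_le _ _).trans (add_le_add ?_ ?_)
        · rw [norm_smul, Real.norm_of_nonneg hlx0.le]
          exact mul_le_mul hlx1 hz (norm_nonneg _) hlp.le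
        · rw [norm_smul, Real.norm_of_nonneg (Int.fract_nonneg _)]
          exact mul_le_of_le_one_left (norm_nonneg _) (Int.fract_lt_one _).le
      · rw [map_sub, map_smul, h.l_e, smul_zero, sub_zero, h.l_tra hg, hlx]
    have hfin : ((fun w => l w) '' {x : Fin ρ → ℝ | x ∈ IntL ρ ∧ ‖x‖ ≤ l p * R + ‖e‖}).Finite :=
      (finite_bdd _).image _
    have hinj : Function.Injective fun m : ℕ => k ^ m * l p := by
      intro a b hab
      have h1 : k ^ a = k ^ b := mul_right_cancel₀ hlp.ne' hab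
      exact pow_right_injective₀ hk0 hk1.ne h1
    refine Set.infinite_range_of_injective hinj (hfin.subset ?_)
    rintro _ ⟨m, rfl⟩
    obtain ⟨w, hw, hlw⟩ := hx m
    exact ⟨w, hw, hlw⟩
  obtain ⟨k, hk0, hk⟩ := hG.l_mul h hT
  have h1 := key T hT k hk0 hk
  have h2 := key T.symm (hG.symm T hT) k⁻¹ (inv_pos.2 hk0) fun x => by
    have h3 := hk (T.symm x)
    rw [LinearEquiv.apply_symm_apply] at h3
    rw [h3, ← mul_assoc, inv_mul_cancel₀ hk0.ne', one_mul]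
  have h4 : k = 1 := by
    have h5 : k ≤ 1 := by
      have := mul_le_mul_of_nonneg_left h2 hk0.le
      rwa [mul_one, mul_inv_cancel₀ hk0.ne'] at this
    exact le_antisymm h5 h1
  rw [hk, h4, one_mul]

/-- **the converse** -/
theorem locPoly_of_cover (h : Par 𝒢 C l e) (hG : Sym 𝒢' C e) (hsub : 𝒢 ⊆ 𝒢') {S : Finset (Fin ρ → ℝ)}
    (hS : ∀ s ∈ S, s ∈ IntL ρ ∧ s ∈ C) (hcov : ∀ x ∈ interior C, ∃ T ∈ 𝒢', ∃ z ∈ cone S, x = T z) :
    ∀ x ∈ C, (∀ t : ℝ, x ≠ t • e) → LocPoly C x := by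
  classical
  obtain ⟨p, hpi, hp, hdom⟩ := exists_dom (C := C) ⟨h.cc.closed, h.cc.add, h.cc.smul, h.pt⟩ h.ne_int
  have hpC : p ∈ C := interior_subset hp
  have hlp := h.l_int hp
  obtain ⟨R, hR⟩ := h.move
  -- the translations have finite index
  obtain ⟨ℱ, hℱ⟩ : ∃ ℱ : Finset ((Fin ρ → ℝ) ≃ₗ[ℝ] (Fin ρ → ℝ)), ∀ T, T ∈ ℱ ↔ T ∈ 𝒢' ∧
      ∃ z : Fin ρ → ℝ, ‖z‖ ≤ l p * R ∧ ∃ t : ℝ, T p = z + t • e :=
    ⟨(hG.finite h hpi hpC hdom (l p * R)).toFinset, fun T => by rw [Set.Finite.mem_toFinset]; rfl⟩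
  obtain ⟨S₁, hS₁⟩ : ∃ S₁, S₁ = ℱ.biUnion fun f => S.image f := ⟨_, rfl⟩
  have hS₁' : ∀ s ∈ S₁, s ∈ IntL ρ ∧ s ∈ C := by
    intro s hs
    rw [hS₁] at hs
    obtain ⟨f, hf, hs⟩ := Finset.mem_biUnion.1 hs
    obtain ⟨a, ha, rfl⟩ := Finset.mem_image.1 hs
    have hf' := ((hℱ f).1 hf).1
    exact ⟨hG.int f hf' a (hS a ha).1, hG.pres f hf' a (hS a ha).2⟩
  have hcov₁ : ∀ x ∈ interior C, ∃ g ∈ 𝒢, ∃ z ∈ cone S₁, x = g z := by
    intro x hx
    obtain ⟨T, hT, z, hz, rfl⟩ := hcov x hx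
    have h1 : l ((l p)⁻¹ • T p) = 1 := by
      rw [map_smul, smul_eq_mul, hG.l_eq h hT, inv_mul_cancel₀ hlp.ne']
    obtain ⟨g, hg, w, hw, t, ht⟩ := hR _ h1
    have h2 : g (T p) = l p • w + (l p * t) • e := by
      have h3 : T p = l p • ((l p)⁻¹ • T p) := by rw [smul_smul, mul_inv_cancel₀ hlp.ne', one_smul]
      rw [h3, map_smul, ht, smul_add, smul_smul]
    have h3 : g * T ∈ ℱ := (hℱ _).2 ⟨hG.mul g (hsub hg) T hT, l p • w, by
      rw [norm_smul, Real.norm_of_nonneg hlp.le]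
      exact mul_le_mul_of_nonneg_left hw hlp.le, l p * t, h2⟩
    refine ⟨g.symm, h.symm g hg, (g * T) z, ?_, ?_⟩
    · rw [hS₁]
      exact cone_mono (Finset.subset_biUnion_of_mem (fun f : (Fin ρ → ℝ) ≃ₗ[ℝ] (Fin ρ → ℝ) => S.image f) h3)
        (cone_image ((g * T : (Fin ρ → ℝ) ≃ₗ[ℝ] (Fin ρ → ℝ)) : (Fin ρ → ℝ) →ₗ[ℝ] (Fin ρ → ℝ)) hz)
    · rw [LinearEquiv.mul_apply, LinearEquiv.symm_apply_apply]
  intro x₀ hx₀ hx₀e
  have hl₀ : 0 < l x₀ := by
    refine lt_of_le_of_ne (h.l_pos x₀ hx₀) fun h0 => ?_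
    obtain ⟨t, -, ht⟩ := h.ker hx₀ h0.symm
    exact hx₀e t ht
  have hlc : Continuous l := LinearMap.continuous_of_finiteDimensional l
  obtain ⟨U, hU⟩ : ∃ U : Set (Fin ρ → ℝ), U = {x | ‖x‖ < ‖x₀‖ + 1} ∩ {x | l x₀ / 2 < l x} ∩ {x | l x < 2 * l x₀} :=
    ⟨_, rfl⟩
  have hUo : IsOpen U := by
    rw [hU]
    exact ((isOpen_lt continuous_norm continuous_const).inter (isOpen_lt continuous_const hlc)).inter
      (isOpen_lt hlc continuous_const)
  have hxU : x₀ ∈ U := by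
    rw [hU]
    refine ⟨⟨?_, ?_⟩, ?_⟩
    · show ‖x₀‖ < ‖x₀‖ + 1
      linarith
    · show l x₀ / 2 < l x₀
      linarith
    · show l x₀ < 2 * l x₀
      linarith
  obtain ⟨D, hD⟩ : ∃ D, D = ∑ s ∈ S₁, 2 * l x₀ * |(l s)⁻¹| * ‖s‖ := ⟨_, rfl⟩
  obtain ⟨R', hR'⟩ : ∃ R', R' = ‖p‖ + l p / (l x₀ / 2) * (‖x₀‖ + 1 + D) := ⟨_, rfl⟩
  obtain ⟨ℱ', hℱ'⟩ : ∃ ℱ' : Finset ((Fin ρ → ℝ) ≃ₗ[ℝ] (Fin ρ → ℝ)), ∀ T, T ∈ ℱ' ↔ T ∈ 𝒢' ∧
      ∃ z : Fin ρ → ℝ, ‖z‖ ≤ R' ∧ ∃ t : ℝ, T p = z + t • e :=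
    ⟨(hG.finite h hpi hpC hdom R').toFinset, fun T => by rw [Set.Finite.mem_toFinset]; rfl⟩
  obtain ⟨S₂, hS₂⟩ : ∃ S₂, S₂ = ℱ'.biUnion fun f => S₁.image f := ⟨_, rfl⟩
  have hS₂' : ∀ s ∈ S₂, s ∈ IntL ρ ∧ s ∈ C := by
    intro s hs
    rw [hS₂] at hs
    obtain ⟨f, hf, hs⟩ := Finset.mem_biUnion.1 hs
    obtain ⟨a, ha, rfl⟩ := Finset.mem_image.1 hs
    have hf' := ((hℱ' f).1 hf).1
    exact ⟨hG.int f hf' a (hS₁' a ha).1, hG.pres f hf' a (hS₁' a ha).2⟩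
  have hin : ∀ x ∈ interior C, x ∈ U → x ∈ cone S₂ := by
    intro x hx hxU
    rw [hU] at hxU
    obtain ⟨⟨hx1, hx2⟩, hx3⟩ := hxU
    change ‖x‖ < ‖x₀‖ + 1 at hx1
    change l x₀ / 2 < l x at hx2
    change l x < 2 * l x₀ at hx3
    obtain ⟨g, hg, z, hz, rfl⟩ := hcov₁ x hx
    have hlz : l (g z) = l z := h.l_tra hg z
    rw [hlz] at hx2 hx3
    have hlz0 : 0 < l z := lt_trans (by linarith) hx2
    have hgF : g ∈ ℱ' := by
      obtain ⟨c, hc, hzc⟩ := hz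
      obtain ⟨z', hz'⟩ : ∃ z', z' = ∑ s ∈ S₁.filter (fun s => l s ≠ 0), c s • s := ⟨_, rfl⟩
      have hzz' : ∃ t : ℝ, z = z' + t • e := by
        have h1 : ∃ t : ℝ, ∑ s ∈ S₁.filter (fun s => ¬ l s ≠ 0), c s • s = t • e := by
          refine Finset.sum_induction _ (fun x : Fin ρ → ℝ => ∃ t : ℝ, x = t • e) ?_ ⟨0, by rw [zero_smul]⟩ ?_
          · rintro a b ⟨ta, rfl⟩ ⟨tb, rfl⟩
            exact ⟨ta + tb, by rw [add_smul]⟩
          · intro s hs
            obtain ⟨hs1, hs2⟩ := Finset.mem_filter.1 hs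
            obtain ⟨t, -, ht⟩ := h.ker (hS₁' s hs1).2 (not_not.1 hs2)
            exact ⟨c s * t, by rw [mul_smul, ← ht]⟩
        obtain ⟨t, ht⟩ := h1
        exact ⟨t, by rw [hz', ← ht, hzc, Finset.sum_filter_add_sum_filter_not]⟩
      obtain ⟨τ, hτ⟩ := hzz'
      have hz'D : ‖z'‖ ≤ D := by
        rw [hz', hD]
        refine (norm_sum_le _ _).trans ((Finset.sum_le_sum fun s hs => ?_).trans
          (Finset.sum_le_sum_of_subset_of_nonneg (Finset.filter_subset _ _) fun s _ _ => by positivity))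
        obtain ⟨hs1, hs2⟩ := Finset.mem_filter.1 hs
        have hls : 0 < l s := lt_of_le_of_ne (h.l_pos s (hS₁' s hs1).2) (Ne.symm hs2)
        rw [norm_smul, Real.norm_of_nonneg (hc s)]
        refine mul_le_mul_of_nonneg_right ?_ (norm_nonneg _)
        rw [abs_of_pos (inv_pos.2 hls), ← div_eq_mul_inv, le_div_iff₀ hls]
        refine le_trans ?_ hx3.le
        rw [hzc, map_sum]
        simp only [map_smul, smul_eq_mul]
        exact Finset.single_le_sum (f := fun s => c s * l s)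
          (fun i hi => mul_nonneg (hc i) (h.l_pos i (hS₁' i hi).2)) hs1
      obtain ⟨v, hv, φ, hφ⟩ := h.tra g hg
      refine (hℱ' g).2 ⟨hsub hg, p + (l p / l z) • (g z - z'), ?_, φ p - l p / l z * (τ + φ z), ?_⟩
      · rw [hR']
        refine (norm_add_le _ _).trans (add_le_add le_rfl ?_)
        rw [norm_smul, Real.norm_of_nonneg (div_nonneg hlp.le hlz0.le)]
        refine mul_le_mul (div_le_div_of_nonneg_left hlp.le (by linarith) hx2.le) ?_ (norm_nonneg _)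
          (div_nonneg hlp.le (by linarith))
        refine (norm_sub_le _ _).trans ?_
        linarith
      · have h1 : l z • v = g z - z' - (τ + φ z) • e := by
          rw [hφ z]
          nth_rewrite 2 [hτ]
          rw [add_smul]
          abel
        have h2 : v = (l z)⁻¹ • (g z - z' - (τ + φ z) • e) := by
          rw [← h1, smul_smul, inv_mul_cancel₀ hlz0.ne', one_smul]
        rw [hφ p, h2, smul_smul, smul_sub, sub_smul, smul_smul, div_eq_mul_inv]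
        abel
    rw [hS₂]
    exact cone_mono (Finset.subset_biUnion_of_mem (fun f : (Fin ρ → ℝ) ≃ₗ[ℝ] (Fin ρ → ℝ) => S₁.image f) hgF)
      (cone_image (g : (Fin ρ → ℝ) →ₗ[ℝ] (Fin ρ → ℝ)) hz)
  refine ⟨S₂, fun s hs => hS₂' s hs, U, hUo.mem_nhds hxU, ?_⟩
  rintro x ⟨hxC, hxU⟩
  have hlim : Tendsto (fun k : ℕ => x + (1 / ((k : ℝ) + 1)) • p) atTop (𝓝 x) := by
    have h1 : Tendsto (fun k : ℕ => (1 / ((k : ℝ) + 1))) atTop (𝓝 0) := tendsto_one_div_add_atTop_nhds_zero_nat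
    have h2 := (h1.smul_const p).const_add x
    rwa [zero_smul, add_zero] at h2
  refine (cone_closed h.cc h.pt fun s hs => (hS₂' s hs).2).mem_of_tendsto hlim ?_
  filter_upwards [hlim.eventually (hUo.mem_nhds hxU)] with k hk
  refine hin _ ?_ hk
  rw [add_comm]
  exact interior_add_mem h.cc.add (interior_smul_mem h.cc.smul (by positivity) hp) hxC

end

end Pool.Agent.L0h18.PT
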