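import Pool.Agent.L0h18.PT.Cone

/-!
# PT: a group of translations of maximal rank moves the cone into a rational polyhedral cone
-/

set_option autoImplicit false

open Pool.Agent.Y167 (cone mem_cone_self cone_add cone_smul cone_mono zero_mem_cone)
open Pool.Agent.N165.KM (IntL exists_int_functional exists_int_interior mem_IntL)
open Filter Topology
open Pool.Agent.L0h18.HZ (CCone)

namespace Pool.Agent.L0h18.PT

section

variable {ρ : ℕ} {𝒢 : Set ((Fin ρ → ℝ) ≃ₗ[ℝ] (Fin ρ → ℝ))} {C : Set (Fin ρ → ℝ)}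
    {l : (Fin ρ → ℝ) →ₗ[ℝ] ℝ} {e : Fin ρ → ℝ}

theorem Par.nonneg (h : Par 𝒢 C l e) {t : ℝ} (ht : t • e ∈ C) : 0 ≤ t := by
  by_contra h0
  push Not at h0
  refine h.e_ne (h.pt e h.e_mem ?_)
  have h1 := h.cc.smul (-t)⁻¹ (inv_nonneg.2 (by linarith)) _ ht
  rw [smul_smul] at h1
  have h2 : (-t)⁻¹ * t = -1 := by
    have : t ≠ 0 := h0.ne
    field_simp
  rwa [h2, neg_smul, one_smul] at h1

/-- the vectors of the cone in `ker l` are the multiples of `e` -/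
theorem Par.ker (h : Par 𝒢 C l e) {x : Fin ρ → ℝ} (hx : x ∈ C) (h0 : l x = 0) :
    ∃ t : ℝ, 0 ≤ t ∧ x = t • e := by
  obtain ⟨-, -, -, hker⟩ := h.basis
  obtain ⟨t, rfl⟩ := hker x hx h0
  exact ⟨t, h.nonneg hx, rfl⟩

theorem Par.sum_mem (h : Par 𝒢 C l e) {ι : Type} (s : Finset ι) (f : ι → Fin ρ → ℝ) (hf : ∀ i ∈ s, f i ∈ C) :
    ∑ i ∈ s, f i ∈ C := by
  have h0C : (0 : Fin ρ → ℝ) ∈ C := by
    have := h.cc.smul 0 le_rfl e h.e_mem
    rwa [zero_smul] at this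
  exact Finset.sum_induction f (· ∈ C) (fun x z hx hz => h.cc.add x hx z hz) h0C hf

theorem Par.cover (h : Par 𝒢 C l e) (hloc : ∀ x ∈ C, (∀ t : ℝ, x ≠ t • e) → LocPoly C x) :
    ∃ F : Finset (Fin ρ → ℝ), (∀ a ∈ F, a ∈ IntL ρ ∧ a ∈ C) ∧ ∀ x ∈ C, ∃ T ∈ 𝒢, T x ∈ cone F := by
  classical
  obtain ⟨s, hψ, hspan, -⟩ := h.basis
  obtain ⟨ξ, -, hξ2⟩ := exists_int_functional h.cc.closed h.cc.add h.cc.smul h.pt
  obtain ⟨p, hp, hlp⟩ : ∃ p ∈ C, l p = 1 := by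
    obtain ⟨p, hp⟩ := h.ne_int
    have h1 := h.l_int hp
    exact ⟨(l p)⁻¹ • p, h.cc.smul _ (inv_nonneg.2 h1.le) _ (interior_subset hp), by
      rw [map_smul, smul_eq_mul, inv_mul_cancel₀ h1.ne']⟩
  have hψ' : ∀ v : s, ∃ ψ, ((v : Fin ρ → ℝ), ψ) ∈ h.H := fun v => hψ v v.2
  choose ψ hψ' using hψ'
  have hlj : ∀ j : s, l (j : Fin ρ → ℝ) = 0 := fun j => by
    obtain ⟨T, hT, φ, h1, -⟩ := hψ' j
    exact h1
  obtain ⟨m, hm⟩ : ∃ m : ℕ, m = Fintype.card s := ⟨_, rfl⟩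
  have hm0 : ∀ j : s, (m : ℝ) ≠ 0 := fun j => by
    have : Nonempty s := ⟨j⟩
    rw [hm]
    exact Nat.cast_ne_zero.2 Fintype.card_ne_zero
  have hq : ∀ j : s, ∃ q ∈ C, ∃ r : ℝ, q = p + (m : ℝ) • (j : Fin ρ → ℝ) + r • e := by
    intro j
    obtain ⟨T, hT, φ, h1, h2, -⟩ := AddSubgroup.nsmul_mem _ (hψ' j) m
    refine ⟨T p, h.pres T hT p hp, φ p, ?_⟩
    rw [h2, hlp, one_smul, Prod.smul_fst, Nat.cast_smul_eq_nsmul]
  choose q hqC r hq using hq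
  obtain ⟨Q, hQ⟩ : ∃ Q : (s → ℝ) → (Fin ρ → ℝ), Q = fun a => ∑ j, (a j / (m : ℝ)) • q j + (1 - ∑ j, a j / (m : ℝ)) • p :=
    ⟨_, rfl⟩
  have hQc : Continuous Q := by
    rw [hQ]
    fun_prop
  have hQe : ∀ a, Q a = p + ∑ j, a j • (j : Fin ρ → ℝ) + (∑ j, a j / (m : ℝ) * r j) • e := by
    intro a
    rw [hQ]
    beta_reduce
    have h1 : ∑ j, (a j / (m : ℝ)) • q j = (∑ j, a j / (m : ℝ)) • p + ∑ j, a j • (j : Fin ρ → ℝ) +
        (∑ j, a j / (m : ℝ) * r j) • e := by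
      rw [Finset.sum_smul, Finset.sum_smul, ← Finset.sum_add_distrib, ← Finset.sum_add_distrib]
      refine Finset.sum_congr rfl fun j _ => ?_
      rw [hq j, smul_add, smul_add, smul_smul, smul_smul, div_mul_cancel₀ _ (hm0 j)]
    rw [h1, sub_smul, one_smul]
    abel
  have hQl : ∀ a, l (Q a) = 1 := by
    intro a
    rw [hQe, map_add, map_add, map_sum, map_smul, h.l_e, hlp, smul_zero, add_zero]
    rw [Finset.sum_eq_zero fun j _ => by rw [map_smul, hlj, smul_zero], add_zero]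
  have hQC : ∀ a ∈ Set.Icc (0 : s → ℝ) 1, Q a ∈ C := by
    rintro a ⟨ha0, ha1⟩
    rw [hQ]
    refine h.cc.add _ (h.sum_mem _ _ fun j _ => h.cc.smul _ (div_nonneg (ha0 j) (Nat.cast_nonneg m)) _ (hqC j)) _
      (h.cc.smul _ ?_ _ hp)
    rw [sub_nonneg]
    calc ∑ j, a j / (m : ℝ) ≤ ∑ _j : s, 1 / (m : ℝ) :=
          Finset.sum_le_sum fun j _ => div_le_div_of_nonneg_right (ha1 j) (Nat.cast_nonneg m)
      _ ≤ 1 := by
          rw [Finset.sum_const, Finset.card_univ, ← hm, nsmul_eq_mul]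
          by_cases h0 : (m : ℝ) = 0
          · rw [h0, zero_mul]
            exact zero_le_one
          · rw [mul_one_div_cancel h0]
  -- every vector of the cone is moved to some `Q a + t e`
  have hmove : ∀ x ∈ C, l x = 1 → ∃ T ∈ 𝒢, ∃ a ∈ Set.Icc (0 : s → ℝ) 1, ∃ t : ℝ, T x = Q a + t • e := by
    intro x hx hlx
    obtain ⟨b, t, hb⟩ := hspan (x - p) (by rw [map_sub, hlx, hlp, sub_self])
    obtain ⟨T, hT, φ, h1, h2, -⟩ := AddSubgroup.sum_mem h.H (t := Finset.univ)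
      (f := fun j : s => (-⌊b j⌋) • ((j : Fin ρ → ℝ), ψ j)) fun j _ => AddSubgroup.zsmul_mem _ (hψ' j) _
    refine ⟨T, hT, fun j => Int.fract (b j), ⟨fun j => Int.fract_nonneg _, fun j => (Int.fract_lt_one _).le⟩,
      t + φ x - ∑ j, Int.fract (b j) / (m : ℝ) * r j, ?_⟩
    rw [h2, hlx, one_smul, hQe, Prod.fst_sum]
    have h3 : x = p + (∑ j, b j • (j : Fin ρ → ℝ) + t • e) := by rw [← hb, add_sub_cancel]
    have h4 : ∑ j : s, ((-⌊b j⌋) • ((j : Fin ρ → ℝ), ψ j)).1 = ∑ j : s, Int.fract (b j) • (j : Fin ρ → ℝ) -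
        ∑ j : s, b j • (j : Fin ρ → ℝ) := by
      rw [← Finset.sum_sub_distrib]
      refine Finset.sum_congr rfl fun j _ => ?_
      rw [Prod.smul_fst, ← Int.cast_smul_eq_zsmul ℝ, ← sub_smul]
      congr 1
      rw [Int.fract]
      push_cast
      ring
    rw [h4, sub_smul, add_smul]
    nth_rewrite 1 [h3]
    abel
  -- the compact set
  obtain ⟨R, hR⟩ := (isCompact_Icc (a := (0 : s → ℝ)) (b := 1)).exists_bound_of_continuousOn
    (f := fun a => ξ (Q a)) ((LinearMap.continuous_of_finiteDimensional ξ).comp hQc).continuousOn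
  have hξe : 0 < ξ e := lt_of_lt_of_le (norm_pos_iff.2 h.e_ne) (hξ2 e h.e_mem)
  obtain ⟨K, hK⟩ : ∃ K : Set (Fin ρ → ℝ), K = (fun z : (s → ℝ) × ℝ => Q z.1 - z.2 • e) ''
    (Set.Icc (0 : s → ℝ) 1 ×ˢ Set.Icc (0 : ℝ) (R / ξ e)) ∩ C := ⟨_, rfl⟩
  have hKc : IsCompact K := by
    rw [hK]
    refine IsCompact.inter_right ((isCompact_Icc.prod isCompact_Icc).image ?_) h.cc.closed
    exact (hQc.comp continuous_fst).sub (continuous_snd.smul continuous_const)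
  have hKm : ∀ a ∈ Set.Icc (0 : s → ℝ) 1, ∀ t : ℝ, 0 ≤ t → Q a - t • e ∈ C → Q a - t • e ∈ K := by
    intro a ha t ht hC
    rw [hK]
    refine ⟨⟨(a, t), ⟨ha, ht, ?_⟩, rfl⟩, hC⟩
    have h1 := (norm_nonneg _).trans (hξ2 _ hC)
    rw [map_sub, map_smul, smul_eq_mul] at h1
    have h2 := (le_abs_self _).trans (hR a ha)
    rw [le_div_iff₀ hξe]
    linarith
  have hKl : ∀ k ∈ K, k ∈ C ∧ ∀ t : ℝ, k ≠ t • e := by
    intro k hk
    rw [hK] at hk
    obtain ⟨⟨z, -, rfl⟩, hC⟩ := hk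
    refine ⟨hC, fun t ht => ?_⟩
    have h1 := congrArg l ht
    rw [map_sub, map_smul, map_smul, h.l_e, smul_zero, smul_zero, sub_zero, hQl] at h1
    exact one_ne_zero h1
  have hSU : ∀ k, ∃ (S : Finset (Fin ρ → ℝ)) (U : Set (Fin ρ → ℝ)), k ∈ K →
      (∀ s ∈ S, (∀ i, ∃ m : ℤ, s i = (m : ℝ)) ∧ s ∈ C) ∧ U ∈ 𝓝 k ∧ C ∩ U ⊆ cone S := by
    intro k
    by_cases hk : k ∈ K
    · obtain ⟨S, hS, U, hU, hUS⟩ := hloc k (hKl k hk).1 (hKl k hk).2
      exact ⟨S, U, fun _ => ⟨hS, hU, hUS⟩⟩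
    · exact ⟨∅, ∅, fun h => absurd h hk⟩
  choose S U hSU using hSU
  obtain ⟨t, htK, ht⟩ := hKc.elim_nhds_subcover U fun k hk => (hSU k hk).2.1
  refine ⟨insert e (t.biUnion S), fun a ha => ?_, fun x hx => ?_⟩
  · rcases Finset.mem_insert.1 ha with rfl | h1
    · exact ⟨h.e_int, h.e_mem⟩
    · obtain ⟨k, hk, hak⟩ := Finset.mem_biUnion.1 h1
      exact (hSU k (htK k hk)).1 a hak
  · have hecone : e ∈ cone (insert e (t.biUnion S)) := mem_cone_self (Finset.mem_insert_self _ _)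
    have hKcone : ∀ k ∈ K, k ∈ cone (insert e (t.biUnion S)) := by
      intro k hk
      obtain ⟨k', hk', hkU⟩ := Set.mem_iUnion₂.1 (ht hk)
      exact cone_mono ((Finset.subset_biUnion_of_mem S hk').trans (Finset.subset_insert _ _))
        ((hSU k' (htK k' hk')).2.2 ⟨(hKl k hk).1, hkU⟩)
    rcases (h.l_pos x hx).eq_or_lt with h0 | h0
    · obtain ⟨r, hr, rfl⟩ := h.ker hx h0.symm
      exact ⟨1, h.one, cone_smul hecone hr⟩
    · have hx' : (l x)⁻¹ • x ∈ C := h.cc.smul _ (inv_nonneg.2 h0.le) _ hx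
      obtain ⟨T, hT, a, ha, r, hr⟩ := hmove _ hx' (by rw [map_smul, smul_eq_mul, inv_mul_cancel₀ h0.ne'])
      refine ⟨T, hT, ?_⟩
      have h1 : T ((l x)⁻¹ • x) ∈ cone (insert e (t.biUnion S)) := by
        rcases le_total 0 r with hr0 | hr0
        · rw [hr]
          refine cone_add (hKcone _ ?_) (cone_smul hecone hr0)
          have h2 := hKm a ha 0 le_rfl (by rw [zero_smul, sub_zero]; exact hQC a ha)
          rwa [zero_smul, sub_zero] at h2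
        · have h2 := h.pres T hT _ hx'
          rw [hr] at h2 ⊢
          have h3 : Q a + r • e = Q a - (-r) • e := by rw [neg_smul, sub_neg_eq_add]
          rw [h3] at h2 ⊢
          exact hKcone _ (hKm a ha (-r) (by linarith) h2)
      have h2 := cone_smul h1 h0.le
      rwa [← map_smul, smul_smul, mul_inv_cancel₀ h0.ne', one_smul] at h2

end

end Pool.Agent.L0h18.PT
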