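import Pool.Agent.L0h18.PT.Cover
import Pool.Agent.L0h18.CO.Conv

/-!
# PT: finiteness properties of the groups which contain the translations
-/

set_option autoImplicit false

open Pool.Agent.Y167 (cone mem_cone_self cone_add cone_smul cone_mono zero_mem_cone cone_ind)
open Pool.Agent.N165.KM (IntL exists_int_functional exists_int_interior mem_IntL finite_bdd interior_add_mem
  interior_smul_mem)
open Filter Topology
open Pool.Agent.L0h18.HZ (CCone)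
open Pool.Agent.L0h18.CO (exists_dom)

namespace Pool.Agent.L0h18.PT

/-- a group of integral automorphisms of the cone `C` which fix the vector `e` -/
structure Sym {ρ : ℕ} (𝒢 : Set ((Fin ρ → ℝ) ≃ₗ[ℝ] (Fin ρ → ℝ))) (C : Set (Fin ρ → ℝ)) (e : Fin ρ → ℝ) : Prop where
  mul : ∀ T ∈ 𝒢, ∀ T' ∈ 𝒢, T * T' ∈ 𝒢
  symm : ∀ T ∈ 𝒢, T.symm ∈ 𝒢
  int : ∀ T ∈ 𝒢, ∀ x ∈ IntL ρ, T x ∈ IntL ρ
  pres : ∀ T ∈ 𝒢, ∀ x ∈ C, T x ∈ C
  fix : ∀ T ∈ 𝒢, T e = e

section

variable {ρ : ℕ} {𝒢 𝒢' : Set ((Fin ρ → ℝ) ≃ₗ[ℝ] (Fin ρ → ℝ))} {C : Set (Fin ρ → ℝ)}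
    {l : (Fin ρ → ℝ) →ₗ[ℝ] ℝ} {e : Fin ρ → ℝ}

theorem cone_closed (hC : CCone C) (hp : ∀ x ∈ C, -x ∈ C → x = 0) {S : Finset (Fin ρ → ℝ)}
    (hS : ∀ s ∈ S, s ∈ C) : IsClosed (cone S) := by
  classical
  obtain ⟨ξ, -, hξ⟩ := exists_int_functional hC.closed hC.add hC.smul hp
  have hξc : Continuous ξ := LinearMap.continuous_of_finiteDimensional ξ
  refine isClosed_of_closure_subset fun x hx => ?_
  obtain ⟨z, hz, hzx⟩ := mem_closure_iff_seq_limit.1 hx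
  obtain ⟨K, hK⟩ : ∃ K : Set (Fin ρ → ℝ), K = (fun c : (Fin ρ → ℝ) → ℝ => ∑ s ∈ S, c s • s) ''
    (Set.pi Set.univ fun s => Set.Icc 0 (|ξ x + 1| * |(ξ s)⁻¹|)) := ⟨_, rfl⟩
  have hKc : IsCompact K := by
    rw [hK]
    refine (isCompact_univ_pi fun s => isCompact_Icc).image ?_
    fun_prop
  have hev : ∀ᶠ n in atTop, z n ∈ K := by
    have h1 : ∀ᶠ n in atTop, ξ (z n) < ξ x + 1 :=
      ((hξc.tendsto x).comp hzx).eventually (gt_mem_nhds (by linarith))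
    filter_upwards [h1] with n hn
    obtain ⟨c, hc, hzc⟩ := hz n
    rw [hK]
    refine ⟨fun s => if s ∈ S ∧ s ≠ 0 then c s else 0, fun s _ => ?_, ?_⟩
    · by_cases hs : s ∈ S ∧ s ≠ 0
      · have hξs : 0 < ξ s := lt_of_lt_of_le (norm_pos_iff.2 hs.2) (hξ s (hS s hs.1))
        beta_reduce
        rw [if_pos hs, Set.mem_Icc]
        refine ⟨hc s, ?_⟩
        refine le_trans ?_ (mul_le_mul_of_nonneg_left (le_abs_self _) (abs_nonneg _))
        rw [← div_eq_mul_inv, le_div_iff₀ hξs]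
        refine le_trans ?_ (hn.le.trans (le_abs_self _))
        rw [hzc, map_sum]
        simp only [map_smul, smul_eq_mul]
        exact Finset.single_le_sum (f := fun s => c s * ξ s)
          (fun i hi => mul_nonneg (hc i) ((norm_nonneg _).trans (hξ i (hS i hi)))) hs.1
      · beta_reduce
        rw [if_neg hs, Set.mem_Icc]
        exact ⟨le_rfl, mul_nonneg (abs_nonneg _) (abs_nonneg _)⟩
    · rw [hzc]
      refine Finset.sum_congr rfl fun s hs => ?_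
      by_cases h0 : s = 0
      · rw [h0, smul_zero, smul_zero]
      · beta_reduce
        rw [if_pos ⟨hs, h0⟩]
  have hxK : x ∈ K := hKc.isClosed.mem_of_tendsto hzx hev
  rw [hK] at hxK
  obtain ⟨c, hc, rfl⟩ := hxK
  exact ⟨c, fun s => (hc s (Set.mem_univ s)).1, rfl⟩

theorem Par.sym (h : Par 𝒢 C l e) : Sym 𝒢 C e := ⟨h.mul, h.symm, h.int, h.pres, h.fix⟩

/-- an element of the group which moves a vector of the cone by a multiple of `e` fixes it -/
theorem Sym.kill (hG : Sym 𝒢' C e) (h : Par 𝒢 C l e) {T : (Fin ρ → ℝ) ≃ₗ[ℝ] (Fin ρ → ℝ)} (hT : T ∈ 𝒢')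
    {x : Fin ρ → ℝ} (hx : x ∈ C) {t : ℝ} (h1 : T x = x + t • e) : t = 0 := by
  have h2 : T e = e := hG.fix T hT
  have h3 : ∀ k : ℕ, x + (k : ℝ) • (t • e) ∈ C := by
    intro k
    induction k with
    | zero => simpa using hx
    | succ k ih =>
      have := hG.pres T hT _ ih
      rw [map_add, map_smul, map_smul, h1, h2, add_assoc] at this
      have h5 : t • e + (k : ℝ) • (t • e) = ((k + 1 : ℕ) : ℝ) • (t • e) := by
        push_cast
        rw [add_smul, one_smul, add_comm]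
      rwa [h5] at this
  have h1' : T.symm x = x + -(t • e) := by
    rw [LinearEquiv.symm_apply_eq, map_add, map_neg, map_smul, h1, h2]
    abel
  have h2' : T.symm e = e := by rw [LinearEquiv.symm_apply_eq, h2]
  have h4 : ∀ k : ℕ, x + (k : ℝ) • (-(t • e)) ∈ C := by
    intro k
    induction k with
    | zero => simpa using hx
    | succ k ih =>
      have := hG.pres _ (hG.symm T hT) _ ih
      rw [map_add, map_smul, map_neg, map_smul, h1', h2', add_assoc] at this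
      have h5 : -(t • e) + (k : ℝ) • (-(t • e)) = ((k + 1 : ℕ) : ℝ) • (-(t • e)) := by
        push_cast
        rw [add_smul, one_smul, add_comm]
      rwa [h5] at this
  have h5 := h.pt (t • e) (dir_mem h.cc h3) (dir_mem h.cc h4)
  exact (smul_eq_zero.1 h5).resolve_right h.e_ne

/-- finiteness: the elements of the group which move the integral interior vector `p`, which dominates the unit
vectors, into `{‖z‖ ≤ R} + ℝ e`, are finitely many -/
theorem Sym.finite (hG : Sym 𝒢' C e) (h : Par 𝒢 C l e) {p : Fin ρ → ℝ} (hp : p ∈ IntL ρ) (hpC : p ∈ C)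
    (hdom : ∀ j, p + Pi.single j 1 ∈ C ∧ p - Pi.single j 1 ∈ C) (R : ℝ) :
    {T | T ∈ 𝒢' ∧ ∃ z : Fin ρ → ℝ, ‖z‖ ≤ R ∧ ∃ t : ℝ, T p = z + t • e}.Finite := by
  classical
  obtain ⟨ξ, -, hξ⟩ := exists_int_functional h.cc.closed h.cc.add h.cc.smul h.pt
  -- the values at `p`
  have hval : {w : Fin ρ → ℝ | ∃ T ∈ 𝒢', w = T p ∧ ∃ z : Fin ρ → ℝ, ‖z‖ ≤ R ∧ ∃ t : ℝ, T p = z + t • e}.Finite := by
    have h1 : {w : Fin ρ → ℝ | ∃ T ∈ 𝒢', w = T p ∧ ∃ z : Fin ρ → ℝ, ‖z‖ ≤ R ∧ ∃ t : ℝ, T p = z + t • e} ⊆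
        ⋃ z₀ ∈ {x : Fin ρ → ℝ | x ∈ IntL ρ ∧ ‖x‖ ≤ R + ‖e‖}, {w | (∃ T ∈ 𝒢', w = T p) ∧
          ∃ k : ℤ, w = z₀ + (k : ℝ) • e} := by
      rintro w ⟨T, hT, rfl, z, hz, t, ht⟩
      refine Set.mem_iUnion₂.2 ⟨T p - (⌊t⌋ : ℝ) • e, ⟨?_, ?_⟩, ⟨T, hT, rfl⟩, ⌊t⌋, by abel⟩
      · refine sub_mem (hG.int T hT p hp) ?_
        rw [Int.cast_smul_eq_zsmul]
        exact AddSubgroup.zsmul_mem _ h.e_int _
      · have h2 : T p - (⌊t⌋ : ℝ) • e = z + Int.fract t • e := by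
          rw [ht, Int.fract, sub_smul]
          abel
        rw [h2]
        refine (norm_add_le _ _).trans (add_le_add hz ?_)
        rw [norm_smul, Real.norm_of_nonneg (Int.fract_nonneg t)]
        exact mul_le_of_le_one_left (norm_nonneg _) (Int.fract_lt_one t).le
    refine Set.Finite.subset (Set.Finite.biUnion (finite_bdd (R + ‖e‖)) fun z₀ _ => ?_) h1
    refine Set.Subsingleton.finite ?_
    rintro w ⟨⟨T, hT, rfl⟩, k, hk⟩ w' ⟨⟨T', hT', rfl⟩, k', hk'⟩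
    have h2 : (T' * T.symm) (T p) = T p + ((k' : ℝ) - k) • e := by
      rw [LinearEquiv.mul_apply, LinearEquiv.symm_apply_apply, hk, hk', sub_smul]
      abel
    have h3 := hG.kill h (hG.mul _ hT' _ (hG.symm T hT)) (hG.pres T hT p hpC) h2
    have h4 : (k' : ℝ) = k := by linarith
    rw [hk, hk', h4]
  -- the stabilisers
  have hstab : ∀ w : Fin ρ → ℝ, {T | T ∈ 𝒢' ∧ T p = w}.Finite := by
    intro w
    have h1 : (fun T : (Fin ρ → ℝ) ≃ₗ[ℝ] (Fin ρ → ℝ) => fun j : Fin ρ => T (Pi.single j 1)) ''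
        {T | T ∈ 𝒢' ∧ T p = w} ⊆ Set.pi Set.univ fun _ => (fun x => x - w) '' {x : Fin ρ → ℝ | x ∈ IntL ρ ∧
          ‖x‖ ≤ 2 * ξ w} := by
      rintro _ ⟨T, ⟨hT, hTp⟩, rfl⟩ j -
      refine ⟨T (p + Pi.single j 1), ⟨hG.int T hT _ (add_mem hp fun i => ?_), ?_⟩, ?_⟩
      · by_cases hij : i = j
        · subst hij
          exact ⟨1, by simp⟩
        · exact ⟨0, by simp [hij]⟩
      · have h2 := hξ _ (hG.pres T hT _ (hdom j).1)
        have h3 := (norm_nonneg _).trans (hξ _ (hG.pres T hT _ (hdom j).2))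
        rw [map_sub, map_sub, hTp] at h3
        rw [map_add, map_add, hTp] at h2
        rw [map_add, hTp]
        linarith
      · beta_reduce
        rw [map_add, hTp, add_sub_cancel_left]
    refine Set.Finite.of_finite_image (Set.Finite.subset (Set.Finite.pi fun _ => (finite_bdd _).image _) h1) ?_
    intro T _ T' _ hTT
    refine LinearEquiv.toLinearMap_injective ((Pi.basisFun ℝ (Fin ρ)).ext fun j => ?_)
    have := congrFun hTT j
    simpa using this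
  refine Set.Finite.subset (Set.Finite.biUnion hval fun w _ => hstab w) ?_
  rintro T ⟨hT, z, hz, t, ht⟩
  exact Set.mem_iUnion₂.2 ⟨T p, ⟨T, hT, rfl, z, hz, t, ht⟩, hT, rfl⟩

/-- every vector with `l x = 1` is moved into `{‖z‖ ≤ R} + ℝ e` -/
theorem Par.move (h : Par 𝒢 C l e) : ∃ R : ℝ, ∀ x, l x = 1 → ∃ T ∈ 𝒢, ∃ z : Fin ρ → ℝ, ‖z‖ ≤ R ∧
    ∃ t : ℝ, T x = z + t • e := by
  classical
  obtain ⟨s, hψ, hspan, -⟩ := h.basis
  obtain ⟨p, hlp⟩ : ∃ p, l p = 1 := by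
    obtain ⟨p, hp⟩ := h.ne_int
    have h1 := h.l_int hp
    exact ⟨(l p)⁻¹ • p, by rw [map_smul, smul_eq_mul, inv_mul_cancel₀ h1.ne']⟩
  have hψ' : ∀ v : s, ∃ ψ, ((v : Fin ρ → ℝ), ψ) ∈ h.H := fun v => hψ v v.2
  choose ψ hψ' using hψ'
  refine ⟨‖p‖ + ∑ j : s, ‖(j : Fin ρ → ℝ)‖, fun x hlx => ?_⟩
  obtain ⟨b, t, hb⟩ := hspan (x - p) (by rw [map_sub, hlx, hlp, sub_self])
  obtain ⟨T, hT, φ, h1, h2, -⟩ := AddSubgroup.sum_mem h.H (t := Finset.univ)
    (f := fun j : s => (-⌊b j⌋) • ((j : Fin ρ → ℝ), ψ j)) fun j _ => AddSubgroup.zsmul_mem _ (hψ' j) _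
  refine ⟨T, hT, p + ∑ j : s, Int.fract (b j) • (j : Fin ρ → ℝ), ?_, t + φ x, ?_⟩
  · refine (norm_add_le _ _).trans (add_le_add le_rfl ((norm_sum_le _ _).trans
      (Finset.sum_le_sum fun j _ => ?_)))
    rw [norm_smul, Real.norm_of_nonneg (Int.fract_nonneg _)]
    exact mul_le_of_le_one_left (norm_nonneg _) (Int.fract_lt_one _).le
  · rw [h2, hlx, one_smul, Prod.fst_sum]
    have h3 : x = p + (∑ j, b j • (j : Fin ρ → ℝ) + t • e) := by rw [← hb, add_sub_cancel]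
    have h4 : ∑ j : s, ((-⌊b j⌋) • ((j : Fin ρ → ℝ), ψ j)).1 = ∑ j : s, Int.fract (b j) • (j : Fin ρ → ℝ) -
        ∑ j : s, b j • (j : Fin ρ → ℝ) := by
      rw [← Finset.sum_sub_distrib]
      refine Finset.sum_congr rfl fun j _ => ?_
      rw [Prod.smul_fst, ← Int.cast_smul_eq_zsmul ℝ, ← sub_smul]
      congr 1
      rw [Int.fract]
      push_cast
      ring
    rw [h4, add_smul]
    nth_rewrite 1 [h3]
    abel

end

end Pool.Agent.L0h18.PT
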