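import Pool.Agent.L0h18.PT.Conv

/-!
# PT: if the cone is locally rational polyhedral outside the ray of `e` then its automorphisms fix `e`
-/

set_option autoImplicit false

open Pool.Agent.Y167 (cone mem_cone_self cone_add cone_smul cone_mono zero_mem_cone cone_ind cone_image)
open Pool.Agent.N165.KM (IntL exists_int_functional exists_int_interior mem_IntL finite_bdd interior_add_mem
  interior_smul_mem)
open Filter Topology
open Pool.Agent.L0h18.HZ (CCone)
open Pool.Agent.L0h18.CO (exists_dom one_le_norm)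

namespace Pool.Agent.L0h18.PT

section

variable {ρ : ℕ} {𝒢 𝒢' : Set ((Fin ρ → ℝ) ≃ₗ[ℝ] (Fin ρ → ℝ))} {C : Set (Fin ρ → ℝ)}
    {l : (Fin ρ → ℝ) →ₗ[ℝ] ℝ} {e : Fin ρ → ℝ}

/-- some translation vector is not a multiple of `e` -/
theorem Par.exists_v (h : Par 𝒢 C l e) (hρ : 3 ≤ ρ) : ∃ z ∈ h.H, ∀ t : ℝ, z.1 ≠ t • e := by
  classical
  obtain ⟨s, hψ, hspan, -⟩ := h.basis
  by_contra hcon
  push Not at hcon
  have h1 : LinearMap.ker l ≤ Submodule.span ℝ {e} := by
    intro u hu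
    obtain ⟨a, t, rfl⟩ := hspan u (LinearMap.mem_ker.1 hu)
    refine Submodule.add_mem _ (Submodule.sum_mem _ fun j _ => Submodule.smul_mem _ _ ?_)
      (Submodule.smul_mem _ _ (Submodule.mem_span_singleton_self e))
    obtain ⟨ψ, hψ'⟩ := hψ j j.2
    obtain ⟨t, ht⟩ := hcon _ hψ'
    exact Submodule.mem_span_singleton.2 ⟨t, ht.symm⟩
  have h2 := Submodule.finrank_mono h1
  have h3 : Module.finrank ℝ (Submodule.span ℝ {e}) ≤ 1 := finrank_span_le_card (R := ℝ) ({e} : Set (Fin ρ → ℝ)) |>.trans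
    (by simp)
  have h4 := LinearMap.finrank_range_add_finrank_ker l
  have h5 : Module.finrank ℝ (LinearMap.range l) ≤ 1 := by
    have := Submodule.finrank_le (LinearMap.range l)
    rwa [Module.finrank_self] at this
  rw [Module.finrank_fin_fun] at h4
  omega

/-- the cone is not rational polyhedral near `e` -/
theorem Par.not_locPoly (h : Par 𝒢 C l e) (hρ : 3 ≤ ρ) : ¬ LocPoly C e := by
  classical
  rintro ⟨S, hS, U, hU, hCU⟩
  obtain ⟨z, hz, hze⟩ := h.exists_v hρ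
  obtain ⟨ξ, -, hξ⟩ := exists_int_functional h.cc.closed h.cc.add h.cc.smul h.pt
  obtain ⟨p, hp⟩ := h.ne_int
  have hlp := h.l_int hp
  have hpC := interior_subset hp
  have hlz : l z.1 = 0 := by
    obtain ⟨T, hT, φ, h1, -⟩ := hz
    exact h1
  -- the points `x k = p + k l(p) v + φ k e` of the cone
  have hx : ∀ k : ℕ, ∃ f : ℝ, p + ((k : ℝ) * l p) • z.1 + f • e ∈ C := by
    intro k
    obtain ⟨T, hT, φ, -, h2, -⟩ := AddSubgroup.nsmul_mem _ hz k
    refine ⟨φ p, ?_⟩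
    have h3 := h.pres T hT p hpC
    rw [h2, Prod.smul_fst, ← Nat.cast_smul_eq_nsmul ℝ, smul_smul, mul_comm (l p)] at h3
    exact h3
  choose f hf using hx
  -- `f k / k → ∞`
  have hfk : ∀ M : ℝ, ∀ᶠ k : ℕ in atTop, M * k ≤ f k := by
    intro M
    by_contra hcon
    rw [Filter.not_eventually] at hcon
    -- along the ultrafilter the quotients converge
    have hne : (atTop ⊓ 𝓟 {k : ℕ | ¬ M * k ≤ f k}).NeBot := Filter.frequently_mem_iff_neBot.1 hcon
    obtain ⟨𝒰, h𝒰⟩ : ∃ 𝒰 : Ultrafilter ℕ, (𝒰 : Filter ℕ) ≤ atTop ⊓ 𝓟 {k : ℕ | ¬ M * k ≤ f k} :=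
      ⟨Ultrafilter.of _, Ultrafilter.of_le _⟩
    have h𝒰1 : (𝒰 : Filter ℕ) ≤ atTop := h𝒰.trans inf_le_left
    have h𝒰2 : ∀ᶠ k in (𝒰 : Filter ℕ), ¬ M * k ≤ f k := h𝒰.trans inf_le_right (Filter.mem_principal_self _)
    have hξe : 0 < ξ e := lt_of_lt_of_le (norm_pos_iff.2 h.e_ne) (hξ e h.e_mem)
    -- a lower bound for `f k / k`
    obtain ⟨B, hB⟩ : ∃ B, B = (|ξ p| + |l p * ξ z.1|) / ξ e := ⟨_, rfl⟩
    have hlow : ∀ k : ℕ, 1 ≤ k → -B * k ≤ f k := by
      intro k hk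
      have h1 := (norm_nonneg _).trans (hξ _ (hf k))
      rw [map_add, map_add, map_smul, map_smul, smul_eq_mul, smul_eq_mul] at h1
      have hk' : (1 : ℝ) ≤ k := by exact_mod_cast hk
      have h2 : ξ p ≤ |ξ p| * k := (le_abs_self _).trans (le_mul_of_one_le_right (abs_nonneg _) hk')
      have h3 : (k : ℝ) * l p * ξ z.1 ≤ |l p * ξ z.1| * k := by
        have := mul_le_mul_of_nonneg_right (le_abs_self (l p * ξ z.1)) (by positivity : (0 : ℝ) ≤ k)
        linarith
      have h4 : -((|ξ p| + |l p * ξ z.1|) * k) ≤ f k * ξ e := by linarith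
      have h5 : -B * k = -((|ξ p| + |l p * ξ z.1|) * k) / ξ e := by
        rw [hB]
        ring
      rw [h5, div_le_iff₀ hξe]
      exact h4
    have hbd : ∀ᶠ k in (𝒰 : Filter ℕ), f k / k ∈ Set.Icc (-B) (max M (-B)) := by
      filter_upwards [h𝒰2, h𝒰1 (eventually_ge_atTop 1)] with k hk1 hk2
      push Not at hk1
      have hk0 : (0 : ℝ) < k := by exact_mod_cast hk2
      refine ⟨(le_div_iff₀ hk0).2 (hlow k hk2), le_trans ((div_le_iff₀ hk0).2 hk1.le) (le_max_left _ _)⟩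
    obtain ⟨φ₀, -, hφ₀⟩ := (isCompact_Icc (a := -B) (b := max M (-B))).ultrafilter_le_nhds
      (𝒰.map (fun k => f k / k)) (by
        rw [Ultrafilter.coe_map, le_principal_iff]
        exact hbd)
    have hlim : Tendsto (fun k : ℕ => (1 / (k : ℝ)) • p + (l p • z.1 + (f k / k) • e)) (𝒰 : Filter ℕ)
        (𝓝 (l p • z.1 + φ₀ • e)) := by
      have h1 : Tendsto (fun k : ℕ => (1 / (k : ℝ))) (𝒰 : Filter ℕ) (𝓝 0) :=
        (tendsto_one_div_atTop_nhds_zero_nat (𝕜 := ℝ)).mono_left h𝒰1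
      have h2 : Tendsto (fun k : ℕ => f k / k) (𝒰 : Filter ℕ) (𝓝 φ₀) := hφ₀
      have h3 := (h1.smul_const p).add ((h2.smul_const e).const_add (l p • z.1))
      rwa [zero_smul, zero_add] at h3
    have hw : l p • z.1 + φ₀ • e ∈ C := by
      refine h.cc.closed.mem_of_tendsto hlim ?_
      filter_upwards [h𝒰1 (eventually_ge_atTop 1)] with k hk
      have hk0 : (0 : ℝ) < k := by exact_mod_cast hk
      have h1 := h.cc.smul (1 / (k : ℝ)) (by positivity) _ (hf k)
      have h2 : (1 / (k : ℝ)) • (p + ((k : ℝ) * l p) • z.1 + f k • e) =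
          (1 / (k : ℝ)) • p + (l p • z.1 + (f k / k) • e) := by
        rw [smul_add, smul_add, smul_smul, smul_smul, ← mul_assoc, one_div, inv_mul_cancel₀ hk0.ne', one_mul,
          add_assoc, div_eq_inv_mul]
      rwa [h2] at h1
    obtain ⟨t, -, ht⟩ := h.ker hw (by rw [map_add, map_smul, map_smul, hlz, h.l_e, smul_zero, smul_zero, add_zero])
    refine hze ((l p)⁻¹ * (t - φ₀)) ?_
    have h1 : l p • z.1 = (t - φ₀) • e := by rw [sub_smul, ← ht, add_sub_cancel_right]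
    rw [mul_smul, ← h1, smul_smul, inv_mul_cancel₀ hlp.ne', one_smul]
  -- the points `x k / f k` tend to `e`
  have hf0 : ∀ᶠ k : ℕ in atTop, 1 ≤ f k ∧ 1 ≤ k := by
    filter_upwards [hfk 1, eventually_ge_atTop 1] with k h1 h2
    have h3 : (1 : ℝ) ≤ k := by exact_mod_cast h2
    exact ⟨by linarith, h2⟩
  have hkf : Tendsto (fun k : ℕ => (k : ℝ) / f k) atTop (𝓝 0) := by
    rw [Metric.tendsto_atTop']
    intro ε hε
    have h1 : ∀ᶠ k : ℕ in atTop, dist ((k : ℝ) / f k) 0 < ε := by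
      filter_upwards [hfk (2 / ε), hf0] with k h1 h2
      have h3 : 0 < f k := by linarith [h2.1]
      rw [Real.dist_eq, sub_zero, abs_of_nonneg (by positivity), div_lt_iff₀ h3]
      have h4 : (k : ℝ) ≤ ε / 2 * f k := by
        have := mul_le_mul_of_nonneg_left h1 (by positivity : (0 : ℝ) ≤ ε / 2)
        have h5 : ε / 2 * (2 / ε * k) = k := by field_simp
        linarith
      nlinarith
    obtain ⟨N, hN⟩ := eventually_atTop.1 h1
    exact ⟨N, fun k hk => hN k hk.le⟩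
  have h1f : Tendsto (fun k : ℕ => (f k)⁻¹) atTop (𝓝 0) := by
    refine squeeze_zero' ?_ ?_ hkf
    · filter_upwards [hf0] with k hk
      exact inv_nonneg.2 (by linarith [hk.1])
    · filter_upwards [hf0] with k hk
      rw [inv_eq_one_div]
      have h1 : (1 : ℝ) ≤ k := by exact_mod_cast hk.2
      exact div_le_div_of_nonneg_right h1 (by linarith [hk.1])
  have hlim : Tendsto (fun k : ℕ => (f k)⁻¹ • p + (((k : ℝ) / f k * l p) • z.1 + e)) atTop (𝓝 e) := by
    have h1 := (h1f.smul_const p).add (((hkf.mul_const (l p)).smul_const z.1).add_const e)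
    rwa [zero_smul, zero_mul, zero_smul, zero_add, zero_add] at h1
  -- a functional which vanishes at `e`
  obtain ⟨μ₀, hμ₀, hμe⟩ := Submodule.exists_le_ker_of_notMem (K := ℝ) (p := Submodule.span ℝ {e}) (v := z.1)
    fun hmem => by
      obtain ⟨t, ht⟩ := Submodule.mem_span_singleton.1 hmem
      exact hze t ht.symm
  obtain ⟨μ, hμ⟩ : ∃ μ : (Fin ρ → ℝ) →ₗ[ℝ] ℝ, μ = (μ₀ z.1)⁻¹ • μ₀ := ⟨_, rfl⟩
  have hμz : μ z.1 = 1 := by rw [hμ, LinearMap.smul_apply, smul_eq_mul, inv_mul_cancel₀ hμ₀]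
  have hμe' : μ e = 0 := by
    rw [hμ, LinearMap.smul_apply, LinearMap.mem_ker.1 (hμe (Submodule.mem_span_singleton_self e)), smul_zero]
  obtain ⟨M, hM⟩ : ∃ M, M = ∑ s ∈ S, |μ s| * |(l s)⁻¹| := ⟨_, rfl⟩
  have hSM : ∀ x ∈ cone S, μ x ≤ M * l x := by
    intro x hx
    refine cone_ind (p := fun x => μ x ≤ M * l x) ?_ (fun x y hx hy => ?_) (fun t x ht hx => ?_) (fun s hs => ?_) hx
    · show μ 0 ≤ M * l 0
      rw [map_zero, map_zero, mul_zero]
    · show μ (x + y) ≤ M * l (x + y)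
      rw [map_add, map_add, mul_add]
      exact add_le_add hx hy
    · show μ (t • x) ≤ M * l (t • x)
      rw [map_smul, map_smul, smul_eq_mul, smul_eq_mul, mul_left_comm]
      exact mul_le_mul_of_nonneg_left hx ht
    · show μ s ≤ M * l s
      rcases (h.l_pos s (hS s hs).2).eq_or_lt with h0 | h0
      · obtain ⟨t, -, ht⟩ := h.ker (hS s hs).2 h0.symm
        rw [← h0, mul_zero, ht, map_smul, hμe', smul_zero]
      · have h1 : |μ s| * |(l s)⁻¹| ≤ M := by
          rw [hM]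
          exact Finset.single_le_sum (f := fun s => |μ s| * |(l s)⁻¹|)
            (fun i _ => mul_nonneg (abs_nonneg _) (abs_nonneg _)) hs
        have h2 := mul_le_mul_of_nonneg_right h1 h0.le
        rw [abs_of_pos (inv_pos.2 h0), mul_assoc, inv_mul_cancel₀ h0.ne', mul_one] at h2
        exact (le_abs_self _).trans h2
  obtain ⟨m, hm⟩ := exists_nat_gt ((M * l p - μ p) / l p)
  obtain ⟨k, hk1, hk2, hk3⟩ := ((hlim.eventually hU).and (hf0.and (eventually_ge_atTop m))).exists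
  have hfk0 : 0 < f k := by linarith [hk2.1]
  have hy : (f k)⁻¹ • p + (((k : ℝ) / f k * l p) • z.1 + e) = (f k)⁻¹ • (p + ((k : ℝ) * l p) • z.1 + f k • e) := by
    rw [smul_add, smul_add, smul_smul, smul_smul, inv_mul_cancel₀ hfk0.ne', one_smul, add_assoc]
    congr 3
    rw [div_eq_inv_mul]
    ring
  have hyC : (f k)⁻¹ • p + (((k : ℝ) / f k * l p) • z.1 + e) ∈ C := by
    rw [hy]
    exact h.cc.smul _ (inv_nonneg.2 hfk0.le) _ (hf k)
  have h1 := hSM _ (hCU ⟨hyC, hk1⟩)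
  rw [hy, map_smul, map_smul, map_add, map_add, map_add, map_add, map_smul, map_smul, map_smul, map_smul, hμz, hμe',
    hlz, h.l_e] at h1
  simp only [smul_eq_mul, mul_zero, add_zero, mul_one] at h1
  have h2 : μ p + (k : ℝ) * l p ≤ M * l p := by
    have h3 := mul_le_mul_of_nonneg_left h1 hfk0.le
    rw [← mul_assoc, mul_inv_cancel₀ hfk0.ne', one_mul] at h3
    have h4 : f k * (M * ((f k)⁻¹ * l p)) = M * l p := by field_simp
    linarith
  have h3 : (m : ℝ) ≤ k := by exact_mod_cast hk3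
  rw [div_lt_iff₀ hlp] at hm
  have h4 := mul_le_mul_of_nonneg_right h3 hlp.le
  linarith

/-- an automorphism of the cone and of the lattice fixes `e` -/
theorem Par.fix_of_loc (h : Par 𝒢 C l e) (hρ : 3 ≤ ρ) (hloc : ∀ x ∈ C, (∀ t : ℝ, x ≠ t • e) → LocPoly C x)
    {T : (Fin ρ → ℝ) ≃ₗ[ℝ] (Fin ρ → ℝ)} (hint : ∀ x ∈ IntL ρ, T x ∈ IntL ρ ∧ T.symm x ∈ IntL ρ)
    (hpres : ∀ x ∈ C, T x ∈ C ∧ T.symm x ∈ C) : T e = e := by
  classical
  by_cases hte : ∃ t : ℝ, T e = t • e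
  · obtain ⟨t, ht⟩ := hte
    have ht0 : 0 ≤ t := h.nonneg (ht ▸ (hpres e h.e_mem).1)
    have ht1 : t ≠ 0 := by
      rintro rfl
      rw [zero_smul] at ht
      exact h.e_ne (T.map_eq_zero_iff.1 ht)
    have htp : 0 < t := lt_of_le_of_ne ht0 (Ne.symm ht1)
    have key : ∀ (T : (Fin ρ → ℝ) ≃ₗ[ℝ] (Fin ρ → ℝ)) (t : ℝ), 0 < t → (∀ x ∈ IntL ρ, T x ∈ IntL ρ) → T e = t • e →
        1 ≤ t := by
      intro T t ht hT hTe
      by_contra h1
      push Not at h1
      have h2 : ∀ m : ℕ, (t ^ m) • e ∈ IntL ρ := by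
        intro m
        induction m with
        | zero => rw [pow_zero, one_smul]; exact h.e_int
        | succ m ih =>
          have h3 := hT _ ih
          rwa [map_smul, hTe, smul_smul, ← pow_succ] at h3
      obtain ⟨m, hm⟩ := exists_pow_lt_of_lt_one (y := t) (x := (‖e‖)⁻¹) (inv_pos.2 (norm_pos_iff.2 h.e_ne)) h1
      have h3 := one_le_norm (h2 m) (smul_ne_zero (pow_pos ht m).ne' h.e_ne)
      rw [norm_smul, Real.norm_of_nonneg (pow_pos ht m).le] at h3
      have h4 := mul_lt_mul_of_pos_right hm (norm_pos_iff.2 h.e_ne)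
      rw [inv_mul_cancel₀ (norm_pos_iff.2 h.e_ne).ne'] at h4
      linarith
    have h1 := key T t htp (fun x hx => (hint x hx).1) ht
    have h2 := key T.symm t⁻¹ (inv_pos.2 htp) (fun x hx => (hint x hx).2) (by
      rw [LinearEquiv.symm_apply_eq, map_smul, ht, smul_smul, inv_mul_cancel₀ ht1, one_smul])
    have h3 : t = 1 := by
      have h5 : t ≤ 1 := by
        have := mul_le_mul_of_nonneg_left h2 htp.le
        rwa [mul_one, mul_inv_cancel₀ htp.ne'] at this
      exact le_antisymm h5 h1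
    rw [ht, h3, one_smul]
  · push Not at hte
    exfalso
    obtain ⟨S, hS, U, hU, hCU⟩ := hloc (T e) (hpres e h.e_mem).1 hte
    refine h.not_locPoly hρ ⟨S.image T.symm, fun s hs => ?_, T ⁻¹' U, ?_, ?_⟩
    · obtain ⟨a, ha, rfl⟩ := Finset.mem_image.1 hs
      exact ⟨(hint a (hS a ha).1).2, (hpres a (hS a ha).2).2⟩
    · have hTc : Continuous T := LinearMap.continuous_of_finiteDimensional (T : (Fin ρ → ℝ) →ₗ[ℝ] (Fin ρ → ℝ))
      exact hTc.continuousAt.preimage_mem_nhds hU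
    · rintro x ⟨hxC, hxU⟩
      have h1 := hCU ⟨(hpres x hxC).1, hxU⟩
      have h2 := cone_image (T.symm : (Fin ρ → ℝ) →ₗ[ℝ] (Fin ρ → ℝ)) h1
      simpa using h2

end

end Pool.Agent.L0h18.PT
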