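import Pool.Agent.L0h18.PT.Cover
import Pool.Agent.L0h18.HZ.Geo
import Pool.Agent.L0h18.HZ.Exp2

/-!
# PT: the nef cone conjecture for varieties with a group of translations of maximal rank
-/

set_option autoImplicit false
set_option linter.unusedSectionVars false

open FF Pool.Agent.W602.GT Pool.Agent.Y172 Pool.Agent.R887
open Pool.Agent.Y167 (cone cone_image cone_ind zero_mem_cone mem_cone_self cone_add cone_smul
  cone_mono)
open Pool.Agent.N110 Pool.Agent.N110.PA Pool.Agent.N110.NV Pool.Agent.N492.PA Pool.Agent.N110.CC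
open Pool.Agent.N165.KM (IntL Sandwich HasFD interior_add_mem interior_smul_mem)
open Pool.Agent.L0h18.CO
open Pool.Agent.L0h18.HZ (CCone exp2 fundG eff_presG)
open Filter Topology

namespace Pool.Agent.L0h18.PT

section

variable {K : Type} [Field K] [Algebra ℂ K] {N n ρ : ℕ} {y : Fin (N + 1) → K}
  {c : Place ℂ K → Fin ρ → ℤ} {𝒮 𝒯 : Subgroup (K ≃ₐ[ℂ] K)}

theorem one_pulls (𝒮 : Subgroup (K ≃ₐ[ℂ] K)) : (1 : (Fin ρ → ℝ) ≃ₗ[ℝ] (Fin ρ → ℝ)) ∈ pulls y c 𝒮 := by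
  refine ⟨1, 𝒮.one_mem, fun P Q hP hPQ => ?_⟩
  rw [image_iff, comap_one] at hPQ
  rw [hPQ]
  rfl

theorem mul_pulls (hy : NormalModel y) (hc : PicardBasis y c) (h𝒯 : ∀ φ ∈ 𝒯, PseudoAut φ y)
    {T T' : (Fin ρ → ℝ) ≃ₗ[ℝ] (Fin ρ → ℝ)} (hT : T ∈ pulls y c 𝒯) (hT' : T' ∈ pulls y c 𝒯) :
    T * T' ∈ pulls y c 𝒯 := by
  obtain ⟨M, hM⟩ := exists_rep (𝒮 := 𝒯) hy hc h𝒯
  obtain ⟨φ, rfl⟩ := (mem_pulls hc hM).1 hT
  obtain ⟨φ', rfl⟩ := (mem_pulls hc hM).1 hT'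
  refine (mem_pulls hc hM).2 ⟨φ * φ', ?_⟩
  rw [hM.TE_mul]

/-- **main theorem**: nef cones which are moved into a rational polyhedral cone -/
theorem mainP (hy : NormalModel y) (hn : Algebra.trdeg ℂ K = n) (hn0 : 0 < n) (hc : PicardBasis y c)
    (h𝒮𝒯 : 𝒮 ≤ 𝒯) (h𝒯 : ∀ φ ∈ 𝒯, IsAut φ y) {A : Set (Fin ρ → ℝ)} (hA : nefCone y n c = A)
    (hint : (interior A).Nonempty) {F : Finset (Fin ρ → ℝ)} (hF : ∀ a ∈ F, a ∈ IntL ρ ∧ a ∈ A)
    (hcov : ∀ x ∈ A, ∃ T ∈ pulls y c 𝒮, T x ∈ cone F) :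
    HasFundDomain (pulls y c 𝒯) A ∧
    (HasFundDomain (pulls y c 𝒯) (A ∩ effCone y c) ↔
      ∀ e ∈ A, (∀ i, ∃ m : ℤ, e i = (m : ℝ)) → e ∈ effCone y c) ∧
    (HasFundDomain (pulls y c 𝒯) (A ∩ effCone y c) ↔ ∀ e ∈ F, e ∉ interior A → e ∈ effCone y c) := by
  classical
  have hfr := fun φ hφ => Pool.Agent.N265.CC.leafFREE K N n y hy φ (h𝒯 φ hφ)
  have hps : ∀ φ ∈ 𝒯, PseudoAut φ y := fun φ hφ => (hfr φ hφ).1
  have hlat := lat hy hc hps
  have hpc := pc_eff hc.numClasses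
  have hsub : A ⊆ CE y c := hA ▸ nef_sub hy hn hn0 hc
  have hC : CCone A := by
    rw [← hA]
    exact ⟨isClosed_closure, fun x hx z hz => closure_coneOf_add hx hz,
      fun t ht x hx => closure_coneOf_smul hx ht⟩
  have hCp : ∀ x ∈ A, -x ∈ A → x = 0 := fun x hx hx' => hpc.pointed x (hsub hx) (hsub hx')
  have hpres : ∀ T ∈ pulls y c 𝒯, ∀ x ∈ A, T x ∈ A := by
    intro T hT x hx
    rw [← hA] at hx ⊢
    exact nef_pres hy h𝒯 hT hx
  obtain ⟨-, hE2⟩ := Pool.Agent.N40.CC.leafEFF K N ρ y hy c hc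
  have hPE : interior A ⊆ effCone y c := (interior_mono hsub).trans hE2
  have hST : ∀ T ∈ pulls y c 𝒮, T ∈ pulls y c 𝒯 := fun T ⟨ψ, h1, h2⟩ => ⟨ψ, h𝒮𝒯 h1, h2⟩
  have hfd : HasFundDomain (pulls y c 𝒯) A := by
    refine fundG hy hc h𝒮𝒯 hps hC hCp rfl hint (fun x hx => hcov x (interior_subset hx)) (fun a ha => (hF a ha).1)
      subset_rfl interior_subset hC.add hC.smul hpres (fun x hx => ?_) (fun a ha => (hF a ha).2)
    obtain ⟨T, hT, hTx⟩ := hcov x hx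
    refine ⟨F.image T.symm, fun a ha => ?_, ?_⟩
    · obtain ⟨b, hb, rfl⟩ := Finset.mem_image.1 ha
      exact ⟨hlat.int _ (hlat.symm T (hST T hT)) b (hF b hb).1, hpres _ (hlat.symm T (hST T hT)) b (hF b hb).2⟩
    · have h1 := cone_image (T.symm : (Fin ρ → ℝ) →ₗ[ℝ] (Fin ρ → ℝ)) hTx
      simpa using h1
  have hfwd : HasFundDomain (pulls y c 𝒯) (A ∩ effCone y c) →
      ∀ e ∈ A, (∀ i, ∃ m : ℤ, e i = (m : ℝ)) → e ∈ effCone y c := by
    rintro ⟨S, hS, hU, -⟩ e heA he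
    obtain ⟨p, hp⟩ := hint
    refine (exp2 (C := A) (P := interior A) (E := A ∩ effCone y c) hC hCp hp (fun x hx t ht => ?_)
      (fun T hT x hx => ⟨hlat.int T hT x hx, hlat.int _ (hlat.symm T hT) x hx⟩)
      (fun T hT x hx => ⟨hpres T hT x hx, hpres _ (hlat.symm T hT) x hx⟩)
      (fun x hx => ⟨interior_subset hx, hPE hx⟩) Set.inter_subset_left hS hU he heA).2
    have h3 := interior_add_mem hC.add (interior_smul_mem hC.smul ht hp) hx
    rwa [add_comm] at h3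
  have hbwd : (∀ e ∈ F, e ∉ interior A → e ∈ effCone y c) →
      HasFundDomain (pulls y c 𝒯) (A ∩ effCone y c) := by
    intro h
    have h1 : A ∩ effCone y c = A := by
      refine Set.inter_eq_left.2 fun x hx => ?_
      obtain ⟨T, hT, hTx⟩ := hcov x hx
      have h2 : T x ∈ effCone y c := cone_ind (p := fun x => x ∈ effCone y c) (coneOf_zero _)
        (fun x z hx hz => coneOf_add hx hz) (fun t x ht hx => coneOf_smul hx ht) (fun a ha => by
          by_cases h3 : a ∈ interior A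
          · exact hPE h3
          · exact h a ha h3) hTx
      have h3 := eff_presG hy hc hps (hlat.symm T (hST T hT)) h2
      rwa [LinearEquiv.symm_apply_apply] at h3
    rw [h1]
    exact hfd
  exact ⟨hfd, ⟨hfwd, fun h => hbwd fun e he _ => h e (hF e he).2 (hF e he).1⟩,
    fun h e he _ => hfwd h e (hF e he).2 (hF e he).1, hbwd⟩

end

end Pool.Agent.L0h18.PT
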