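import Pool.Agent.L0h18.PT.Geo
import Pool.Agent.L0h18.PT.Conv

/-!
# PT: consequences of the nef cone conjecture
-/

set_option autoImplicit false
set_option linter.unusedSectionVars false

open FF Pool.Agent.W602.GT Pool.Agent.Y172 Pool.Agent.R887
open Pool.Agent.Y167 (cone cone_image cone_ind zero_mem_cone mem_cone_self cone_add cone_smul
  cone_mono)
open Pool.Agent.N110 Pool.Agent.N110.PA Pool.Agent.N110.NV Pool.Agent.N492.PA Pool.Agent.N110.CC
open Pool.Agent.N165.KM (IntL Sandwich HasFD interior_add_mem interior_smul_mem)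
open Pool.Agent.L0h18.CO
open Pool.Agent.L0h18.HZ (CCone exp2 fundG eff_presG)
open Filter Topology

namespace Pool.Agent.L0h18.PT

section

variable {K : Type} [Field K] [Algebra ℂ K] {N n ρ : ℕ} {y : Fin (N + 1) → K}
  {c : Place ℂ K → Fin ρ → ℤ} {𝒮 𝒯 : Subgroup (K ≃ₐ[ℂ] K)}

/-- the interior of the nef cone consists of effective classes -/
theorem int_eff (hy : NormalModel y) (hn : Algebra.trdeg ℂ K = n) (hn0 : 0 < n) (hc : PicardBasis y c) :
    interior (nefCone y n c) ⊆ effCone y c := by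
  obtain ⟨-, hE2⟩ := Pool.Agent.N40.CC.leafEFF K N ρ y hy c hc
  exact (interior_mono (nef_sub hy hn hn0 hc)).trans hE2

/-- the group of automorphisms as a group of symmetries of the nef cone which fix `e` -/
theorem sym_pulls (hy : NormalModel y) (hc : PicardBasis y c)
    (h𝒯 : ∀ φ ∈ 𝒯, IsAut φ y) {e : Fin ρ → ℝ} (hfix : ∀ T ∈ pulls y c 𝒯, T e = e) :
    Sym (pulls y c 𝒯) (nefCone y n c) e := by
  have hfr := fun φ hφ => Pool.Agent.N265.CC.leafFREE K N n y hy φ (h𝒯 φ hφ)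
  have hps : ∀ φ ∈ 𝒯, PseudoAut φ y := fun φ hφ => (hfr φ hφ).1
  have hlat := lat hy hc hps
  exact ⟨fun T hT T' hT' => mul_pulls hy hc hps hT hT', hlat.symm, hlat.int,
    fun T hT x hx => nef_pres hy h𝒯 hT hx, hfix⟩

/-- if the nef cone conjecture holds then the integral nef classes are effective -/
theorem eff_of_fund (hy : NormalModel y) (hn : Algebra.trdeg ℂ K = n) (hn0 : 0 < n) (hc : PicardBasis y c)
    (h𝒯 : ∀ φ ∈ 𝒯, IsAut φ y) (hint : (interior (nefCone y n c)).Nonempty)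
    (hfd : HasFundDomain (pulls y c 𝒯) (nefCone y n c ∩ effCone y c)) :
    ∀ e ∈ nefCone y n c, (∀ i, ∃ m : ℤ, e i = (m : ℝ)) → e ∈ effCone y c := by
  classical
  have hfr := fun φ hφ => Pool.Agent.N265.CC.leafFREE K N n y hy φ (h𝒯 φ hφ)
  have hps : ∀ φ ∈ 𝒯, PseudoAut φ y := fun φ hφ => (hfr φ hφ).1
  have hlat := lat hy hc hps
  have hpc := pc_eff hc.numClasses
  have hsub := nef_sub hy hn hn0 hc
  have hC : CCone (nefCone y n c) :=
    ⟨isClosed_closure, fun x hx z hz => closure_coneOf_add hx hz,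
      fun t ht x hx => closure_coneOf_smul hx ht⟩
  obtain ⟨S, hS, hU, -⟩ := hfd
  intro e heA he
  obtain ⟨p, hp⟩ := hint
  refine (exp2 (C := nefCone y n c) (P := interior (nefCone y n c)) (E := nefCone y n c ∩ effCone y c) hC
    (fun x hx hx' => hpc.pointed x (hsub hx) (hsub hx')) hp (fun x hx t ht => ?_)
    (fun T hT x hx => ⟨hlat.int T hT x hx, hlat.int _ (hlat.symm T hT) x hx⟩)
    (fun T hT x hx => ⟨nef_pres hy h𝒯 hT hx, nef_pres hy h𝒯 (hlat.symm T hT) hx⟩)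
    (fun x hx => ⟨interior_subset hx, int_eff hy hn hn0 hc hx⟩) Set.inter_subset_left hS hU he heA).2
  have h3 := interior_add_mem hC.add (interior_smul_mem hC.smul ht hp) hx
  rwa [add_comm] at h3

/-- if the group of automorphisms has a rational polyhedral fundamental domain then the nef cone is rational
polyhedral outside the ray of `e` -/
theorem loc_of_fund (hy : NormalModel y) (hc : PicardBasis y c) (h𝒮𝒯 : 𝒮 ≤ 𝒯) (h𝒯 : ∀ φ ∈ 𝒯, IsAut φ y)
    {l : (Fin ρ → ℝ) →ₗ[ℝ] ℝ} {e : Fin ρ → ℝ} (hP : Par (pulls y c 𝒮) (nefCone y n c) l e)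
    (hfix : ∀ T ∈ pulls y c 𝒯, T e = e) {E : Set (Fin ρ → ℝ)} (hE1 : interior (nefCone y n c) ⊆ E)
    (hE2 : E ⊆ nefCone y n c) (hfd : HasFundDomain (pulls y c 𝒯) E) :
    ∀ x ∈ nefCone y n c, (∀ t : ℝ, x ≠ t • e) → LocPoly (nefCone y n c) x := by
  obtain ⟨S, hS, hU, -⟩ := hfd
  refine locPoly_of_cover hP (sym_pulls hy hc h𝒯 hfix) (fun T ⟨ψ, h1, h2⟩ => ⟨ψ, h𝒮𝒯 h1, h2⟩) (S := S)
    (fun s hs => ⟨hS s hs, hE2 ?_⟩) (fun x hx => ?_)
  · rw [hU]
    exact Set.mem_iUnion₂.2 ⟨1, one_pulls 𝒯, s, mem_cone_self hs, rfl⟩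
  · have h1 := hE1 hx
    rw [hU] at h1
    obtain ⟨T, hT, z, hz, hx'⟩ := Set.mem_iUnion₂.1 h1
    exact ⟨T, hT, z, hz, hx'.symm⟩

end

end Pool.Agent.L0h18.PT
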